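import Pool.Agent.Helper23_Refl.StmtC5
import Pool.Agent.Helper38_Refl.StartC

/-!
# CMPK: the compactness certificates
-/

namespace Pool.Agent.Refl.H44

open Matrix Pool.Agent.Refl Pool.Agent.Refl.H93 Pool.Agent.Refl.H38

/-! ### reading -/

theorem fc10_eq {α : Type} (A : K.I10) (f : K.I10 → α) : K.fc10 A f = f A := by
  simp only [K.fc10, H38.fcI_eq]

theorem rdLs_ex (k w : ℕ) : ∀ (f : List K.I4 → ℕ → ℕ) (s : ℕ), ∃ (l : List K.I4) (s' : ℕ),
    K.rdLs k w f s = f l s' ∧ l.length = k := by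
  induction k with
  | zero => intro f s; exact ⟨[], s, rfl, rfl⟩
  | succ k ih =>
    intro f s
    have h : K.rdLs (k + 1) w f s =
        K.rdI w s fun v s => K.rdLs k w (fun l s => f (List.cons v l) s) s := rfl
    rw [h]
    obtain ⟨v, s1, h1⟩ := H38.rdI_ex w s fun v s => K.rdLs k w (fun l s => f (List.cons v l) s) s
    rw [h1]
    obtain ⟨l, s2, h2, h3⟩ := ih (fun l s => f (List.cons v l) s) s1
    exact ⟨v :: l, s2, h2, by rw [List.length_cons, h3]⟩

theorem rdCs_ex (A : K.I10) (k w : ℕ) : ∀ (f : List K.Cv → ℕ → ℕ) (s : ℕ),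
    ∃ (l : List K.Cv) (s' : ℕ),
    K.rdCs A k w f s = f l s' ∧ l.length = k ∧ ∀ v ∈ l, v.U = K.mulI A v.V := by
  induction k with
  | zero => intro f s; exact ⟨[], s, rfl, rfl, by simp⟩
  | succ k ih =>
    intro f s
    have h : K.rdCs A (k + 1) w f s =
      K.fc (Nat.mod s 281474976710656) fun h =>
      K.rdI w (Nat.div s 281474976710656) fun v s =>
      K.fc4 (K.mulI A v) fun u =>
      K.fc (Nat.mod h 256) fun t0 => K.fc (Nat.mod (Nat.div h 256) 256) fun t1 =>
      K.fc (Nat.mod (Nat.div h 65536) 256) fun t2 =>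
      K.fc (Nat.mod (Nat.div h 16777216) 256) fun n0 =>
      K.fc (Nat.mod (Nat.div h 4294967296) 256) fun n1 =>
      K.fc (Nat.div h 1099511627776) fun n2 =>
      K.rdCs A k w (fun l s => f (List.cons (K.Cv.mk v u t0 t1 t2 n0 n1 n2) l) s) s := rfl
    rw [h, fc_eq]
    set hh := Nat.mod s 281474976710656
    obtain ⟨v, s1, h1⟩ := H38.rdI_ex w (Nat.div s 281474976710656) fun v s =>
      K.fc4 (K.mulI A v) fun u =>
      K.fc (Nat.mod hh 256) fun t0 => K.fc (Nat.mod (Nat.div hh 256) 256) fun t1 =>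
      K.fc (Nat.mod (Nat.div hh 65536) 256) fun t2 =>
      K.fc (Nat.mod (Nat.div hh 16777216) 256) fun n0 =>
      K.fc (Nat.mod (Nat.div hh 4294967296) 256) fun n1 =>
      K.fc (Nat.div hh 1099511627776) fun n2 =>
      K.rdCs A k w (fun l s => f (List.cons (K.Cv.mk v u t0 t1 t2 n0 n1 n2) l) s) s
    rw [h1, H38.fc4_eq, fc_eq, fc_eq, fc_eq, fc_eq, fc_eq, fc_eq]
    obtain ⟨l, s2, h2, h3, h4⟩ := ih (fun l s => f (List.cons (K.Cv.mk v (K.mulI A v)
      (Nat.mod hh 256) (Nat.mod (Nat.div hh 256) 256) (Nat.mod (Nat.div hh 65536) 256)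
      (Nat.mod (Nat.div hh 16777216) 256) (Nat.mod (Nat.div hh 4294967296) 256)
      (Nat.div hh 1099511627776)) l) s) s1
    refine ⟨_, s2, h2, by rw [List.length_cons, h3], ?_⟩
    intro x hx
    rcases List.mem_cons.1 hx with h5 | h5
    · rw [h5]
    · exact h4 x h5

theorem allC_spec (f : K.Cv → Bool) (l : List K.Cv) (h : K.allC f l = true) :
    ∀ x ∈ l, f x = true := by
  induction l with
  | nil => intro x hx; exact absurd hx (List.not_mem_nil)
  | cons a l ih =>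
    have e : K.allC f (a :: l) = (Bool.rec false (K.allC f l) (f a) : Bool) := rfl
    rw [e] at h
    have h1 : f a = true ∧ K.allC f l = true := by
      cases hf : f a
      · rw [hf] at h
        exact absurd h (by simp)
      · rw [hf] at h
        exact ⟨rfl, h⟩
    intro x hx
    rcases List.mem_cons.1 hx with h2 | h2
    · rw [h2]; exact h1.1
    · exact ih h1.2 x h2

theorem allF_spec (f : K.I4 → Bool) (l : List K.I4) (h : K.allF f l = true) :
    ∀ x ∈ l, f x = true := by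
  induction l with
  | nil => intro x hx; exact absurd hx (List.not_mem_nil)
  | cons a l ih =>
    have e : K.allF f (a :: l) = (Bool.rec false (K.allF f l) (f a) : Bool) := rfl
    rw [e] at h
    have h1 : f a = true ∧ K.allF f l = true := by
      cases hf : f a
      · rw [hf] at h
        exact absurd h (by simp)
      · rw [hf] at h
        exact ⟨rfl, h⟩
    intro x hx
    rcases List.mem_cons.1 hx with h2 | h2
    · rw [h2]; exact h1.1
    · exact ih h1.2 x h2

theorem getF_mem (l : List K.I4) : ∀ i : ℕ, i < l.length → K.getF l i ∈ l := by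
  induction l with
  | nil => intro i hi; exact absurd hi (Nat.not_lt_zero _)
  | cons a l ih =>
    intro i hi
    cases i with
    | zero => exact List.mem_cons_self
    | succ m =>
      have h : K.getF (a :: l) (m + 1) = K.getF l m := rfl
      rw [h]
      exact List.mem_cons_of_mem _ (ih m (by simpa using hi))

theorem getC_mem (l : List K.Cv) : ∀ i : ℕ, i < l.length → K.getC l i ∈ l := by
  induction l with
  | nil => intro i hi; exact absurd hi (Nat.not_lt_zero _)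
  | cons a l ih =>
    intro i hi
    cases i with
    | zero => exact List.mem_cons_self
    | succ m =>
      have h : K.getC (a :: l) (m + 1) = K.getC l m := rfl
      rw [h]
      exact List.mem_cons_of_mem _ (ih m (by simpa using hi))

theorem sumF_bz (A : K.I10) (x : Z4) (l : List K.I4) : ∀ n : ℕ, l.length = n →
    bz (matI A) x (vI (K.sumF l)) = ∑ i : Fin n, bz (matI A) x (vI (K.getF l i)) := by
  induction l with
  | nil =>
    intro n hn
    subst hn
    have e : K.sumF [] = K.zI4 := rfl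
    rw [e, H38.vI_zero]
    simp [bz_eq]
  | cons a l ih =>
    intro n hn
    subst hn
    have e : K.sumF (a :: l) = K.addI a (K.sumF l) := rfl
    rw [e, H38.vI_add, H38.bz_add_r, ih _ rfl]
    show _ = ∑ i : Fin (l.length + 1), bz (matI A) x (vI (K.getF (a :: l) i))
    rw [Fin.sum_univ_succ]
    rfl

theorem zerI_iff (x : ℤ) : K.zerI x = true ↔ x = 0 := by
  rw [K.zerI, Int.beq'_eq]

theorem nbC_iff (u x y z : K.I4) : K.nbC u x y z = true ↔
    K.dotI u x < 0 ∧ K.dotI u y = 0 ∧ K.dotI u z = 0 := by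
  unfold K.nbC
  rw [ands_iff, ands_iff, negb_iff, zerI_iff, zerI_iff]

theorem sigC_spec (A : K.I10) (a b c : K.I4) (h : K.sigC A a b c = true)
    (hb : 0 < bz (matI A) (vI b) (vI b)) (hc : 0 < bz (matI A) (vI c) (vI c)) :
    (matI A).det < 0 ∧ 0 < bz (matI A) (vI a) (vI a) ∧ 0 < g2 (matI A) (vI a) (vI b) ∧
      0 < g3 (matI A) (vI a) (vI b) (vI c) (vI c) := by
  have e : K.sigC A a b c = K.ands (K.negb (K.detA A)) (K.mkEd A a b c (fun v => v) fun E =>
    K.ands (K.posI (K.dotI a (K.mulI A a)))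
    (K.ands (Nat.ble 1 E.A33) (Nat.ble 1 E.De))) := rfl
  obtain ⟨E, hE, hO⟩ := mkEd_spec A a b c (fun v => v) fun E =>
    K.ands (K.posI (K.dotI a (K.mulI A a))) (K.ands (Nat.ble 1 E.A33) (Nat.ble 1 E.De))
  rw [e, hE, ands_iff, ands_iff, ands_iff, negb_iff, detA_eq, posI_iff, dotI_mulI] at h
  obtain ⟨hd, ha, h1, h2⟩ := h
  have hA : 1 ≤ E.A33 := by simpa [Nat.ble_eq] using h1
  have hDe : 1 ≤ E.De := by simpa [Nat.ble_eq] using h2
  rw [hO.eA33] at hA
  rw [hO.eDe] at hDe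
  set G := matI A with hG
  set aa := bz G (vI a) (vI a) with haa
  set bb := bz G (vI b) (vI b) with hbb
  set cc := bz G (vI c) (vI c) with hcc
  set P := bz G (vI a) (vI b) with hP
  set Q := bz G (vI a) (vI c) with hQ
  set R := bz G (vI b) (vI c) with hR
  have k1 : R.natAbs * R.natAbs < bb.natAbs * cc.natAbs := by
    by_contra hcon
    push Not at hcon
    rw [Nat.sub_eq_zero_of_le hcon, Nat.mul_zero, Nat.zero_sub] at hDe
    omega
  have ea : ((aa.natAbs : ℕ) : ℤ) = aa := Int.natAbs_of_nonneg ha.le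
  have eb : ((bb.natAbs : ℕ) : ℤ) = bb := Int.natAbs_of_nonneg hb.le
  have ec : ((cc.natAbs : ℕ) : ℤ) = cc := Int.natAbs_of_nonneg hc.le
  have eP : ((P.natAbs : ℕ) : ℤ) = |P| := Int.natCast_natAbs P
  have eQ : ((Q.natAbs : ℕ) : ℤ) = |Q| := Int.natCast_natAbs Q
  have eR : ((R.natAbs : ℕ) : ℤ) = |R| := Int.natCast_natAbs R
  have k2 : (0 : ℤ) < aa * bb - P ^ 2 := by
    have h3 : P.natAbs * P.natAbs < aa.natAbs * bb.natAbs := by omega
    have h4 : ((P.natAbs * P.natAbs : ℕ) : ℤ) < ((aa.natAbs * bb.natAbs : ℕ) : ℤ) := by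
      exact_mod_cast h3
    rw [Nat.cast_mul, Nat.cast_mul, ea, eb, eP, abs_mul_abs_self] at h4
    linarith [pow_two P]
  have k3 : (0 : ℤ) < aa * (bb * cc - |R| * |R|) -
      (|P| * (|P| * cc + |Q| * |R|) + |Q| * (|Q| * bb + |P| * |R|)) := by
    have h4 : P.natAbs * (P.natAbs * cc.natAbs + Q.natAbs * R.natAbs) +
        Q.natAbs * (Q.natAbs * bb.natAbs + P.natAbs * R.natAbs) <
        aa.natAbs * (bb.natAbs * cc.natAbs - R.natAbs * R.natAbs) := by omega
    have h5 : ((P.natAbs * (P.natAbs * cc.natAbs + Q.natAbs * R.natAbs) +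
        Q.natAbs * (Q.natAbs * bb.natAbs + P.natAbs * R.natAbs) : ℕ) : ℤ) <
        ((aa.natAbs * (bb.natAbs * cc.natAbs - R.natAbs * R.natAbs) : ℕ) : ℤ) := by
      exact_mod_cast h4
    push_cast [Nat.cast_sub k1.le] at h5
    rw [abs_of_pos ha, abs_of_pos hb, abs_of_pos hc] at h5
    linarith
  refine ⟨hd, ha, ?_, ?_⟩
  · unfold g2
    linarith
  · have e3 : g3 G (vI a) (vI b) (vI c) (vI c) =
        aa * (bb * cc - R ^ 2) - P * (P * cc - Q * R) + Q * (P * R - Q * bb) := by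
      unfold g3
      rw [Matrix.det_fin_three]
      simp only [Matrix.of_apply, Matrix.cons_val', Matrix.cons_val_zero, Matrix.cons_val_one,
        Matrix.cons_val]
      ring
    have e4 : |P| * |Q| * |R| = |P * Q * R| := by rw [abs_mul, abs_mul]
    have e5 := neg_abs_le (P * Q * R)
    have sP : |P| * |P| = P ^ 2 := by rw [abs_mul_abs_self, pow_two]
    have sQ : |Q| * |Q| = Q ^ 2 := by rw [abs_mul_abs_self, pow_two]
    have sR : |R| * |R| = R ^ 2 := by rw [abs_mul_abs_self, pow_two]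
    have e6 : aa * (bb * cc - |R| * |R|) -
      (|P| * (|P| * cc + |Q| * |R|) + |Q| * (|Q| * bb + |P| * |R|)) =
      aa * (bb * cc - |R| * |R|) - |P| * |P| * cc - |Q| * |Q| * bb - 2 * (|P| * |Q| * |R|) := by
      ring
    rw [e6, sP, sQ, sR, e4] at k3
    rw [e3]
    linarith

theorem cvC_spec (A : K.I10) (F : List K.I4) (n : ℕ) (C : List K.Cv) (m : ℕ) (O S : K.I4)
    (v : K.Cv) (hv : v.U = K.mulI A v.V) (hC : ∀ i < m, (K.getC C i).U = K.mulI A (K.getC C i).V)
    (h : K.cvC F n C m O S v = true) :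
    (bz (matI A) (vI v.V) (vI v.V) < 0 ∧ bz (matI A) (vI O) (vI v.V) < 0 ∧
      bz (matI A) (vI S) (vI v.V) < 0) ∧
    (bz (matI A) (vI v.V) (vI (K.getF F v.t0)) = 0 ∧
      bz (matI A) (vI v.V) (vI (K.getF F v.t1)) = 0 ∧
      bz (matI A) (vI v.V) (vI (K.getF F v.t2)) = 0) ∧
    (v.t0 < n ∧ v.t1 < n ∧ v.t2 < n ∧ v.n0 < m ∧ v.n1 < m ∧ v.n2 < m) ∧
    (bz (matI A) (vI (K.getC C v.n0).V) (vI (K.getF F v.t0)) < 0 ∧
      bz (matI A) (vI (K.getC C v.n0).V) (vI (K.getF F v.t1)) = 0 ∧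
      bz (matI A) (vI (K.getC C v.n0).V) (vI (K.getF F v.t2)) = 0) ∧
    (bz (matI A) (vI (K.getC C v.n1).V) (vI (K.getF F v.t1)) < 0 ∧
      bz (matI A) (vI (K.getC C v.n1).V) (vI (K.getF F v.t0)) = 0 ∧
      bz (matI A) (vI (K.getC C v.n1).V) (vI (K.getF F v.t2)) = 0) ∧
    (bz (matI A) (vI (K.getC C v.n2).V) (vI (K.getF F v.t2)) < 0 ∧
      bz (matI A) (vI (K.getC C v.n2).V) (vI (K.getF F v.t0)) = 0 ∧
      bz (matI A) (vI (K.getC C v.n2).V) (vI (K.getF F v.t1)) = 0) := by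
  have e : K.cvC F n C m O S v = (fun x y z : K.I4 =>
    K.ands (K.ands (K.ands (K.negb (K.dotI v.V v.U)) (K.negb (K.dotI O v.U)))
      (K.ands (K.negb (K.dotI S v.U))
      (K.ands (K.zerI (K.dotI x v.U)) (K.ands (K.zerI (K.dotI y v.U)) (K.zerI (K.dotI z v.U))))))
    (K.ands (K.ands (K.ands (Nat.blt v.t0 n) (K.ands (Nat.blt v.t1 n) (Nat.blt v.t2 n)))
      (K.ands (Nat.blt v.n0 m) (K.ands (Nat.blt v.n1 m) (Nat.blt v.n2 m))))
    (K.ands (K.nbC (K.getC C v.n0).U x y z) (K.ands (K.nbC (K.getC C v.n1).U y x z)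
      (K.nbC (K.getC C v.n2).U z x y)))))
    (K.getF F v.t0) (K.getF F v.t1) (K.getF F v.t2) := rfl
  rw [e] at h
  simp only [ands_iff, negb_iff, zerI_iff, nbC_iff, Nat.blt_eq] at h
  obtain ⟨⟨⟨h1, h2⟩, h3, h4, h5, h6⟩, ⟨⟨h7, h8, h9⟩, h10, h11, h12⟩, ⟨h13, h14, h15⟩,
    ⟨h16, h17, h18⟩, h19, h20, h21⟩ := h
  rw [hv, dotI_mulI] at h1 h2 h3 h4 h5 h6
  rw [hC _ h10, dot_mul] at h13 h14 h15
  rw [hC _ h11, dot_mul] at h16 h17 h18
  rw [hC _ h12, dot_mul] at h19 h20 h21
  refine ⟨⟨h1, h2, h3⟩, ⟨?_, ?_, ?_⟩, ⟨h7, h8, h9, h10, h11, h12⟩, ⟨h13, h14, h15⟩,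
    ⟨h16, h17, h18⟩, h19, h20, h21⟩
  · rw [bz_commA]; exact h4
  · rw [bz_commA]; exact h5
  · rw [bz_commA]; exact h6

theorem okb_neK {b : Bool} {s : ℕ} (h : K.okb b s ≠ 0) : b = true := by
  cases b
  · exact absurd rfl h
  · rfl

theorem br_up (G : M4) (x y : Z4) : br G (up x) (up y) = (bz G x y : ℝ) := by
  simp only [br, bz, up]
  push_cast
  rfl

theorem cmpK (h1 : SigPStmt) (h2 : Cmp2Stmt) (h3 : AniStmt) (h4 : ConvStmt) : CmpKStmt := by
  intro A s h
  have e : K.cmpK A s = K.fc (Nat.mod s 256) fun n => K.fc (Nat.mod (Nat.div s 256) 64) fun w =>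
    K.rdLs n w (fun F s => K.rdI w s fun O s =>
    K.fc (Nat.mod s 256) fun m => K.rdCs A m (Nat.mod (Nat.div s 256) 64) (fun C s =>
      K.fc4 (K.sumF F) fun S => K.fc4 (K.mulI A O) fun P =>
      K.okb (K.ands (K.ands (Nat.ble 1 m) (K.ands (K.prm A) (K.ands (K.negb (K.dotI O P))
          ((fun v : K.Cv => K.sigC A (K.getF F v.t0) (K.getF F v.t1) (K.getF F v.t2))
            (K.getC C 0)))))
        (K.ands (K.allF (fun e => K.ands (K.negb (K.dotI e P)) (K.isR A e)) F)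
          (K.allC (K.cvC F n C m O S) C))) s) (Nat.div s 16384)) (Nat.div s 16384) := rfl
  rw [e, fc_eq, fc_eq] at h
  clear e
  set n := Nat.mod s 256 with hn
  set w := Nat.mod (Nat.div s 256) 64
  obtain ⟨F, s1, e1, hF⟩ := rdLs_ex n w (fun F s => K.rdI w s fun O s =>
    K.fc (Nat.mod s 256) fun m => K.rdCs A m (Nat.mod (Nat.div s 256) 64) (fun C s =>
      K.fc4 (K.sumF F) fun S => K.fc4 (K.mulI A O) fun P =>
      K.okb (K.ands (K.ands (Nat.ble 1 m) (K.ands (K.prm A) (K.ands (K.negb (K.dotI O P))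
          ((fun v : K.Cv => K.sigC A (K.getF F v.t0) (K.getF F v.t1) (K.getF F v.t2))
            (K.getC C 0)))))
        (K.ands (K.allF (fun e => K.ands (K.negb (K.dotI e P)) (K.isR A e)) F)
          (K.allC (K.cvC F n C m O S) C))) s) (Nat.div s 16384)) (Nat.div s 16384)
  rw [e1] at h
  clear e1
  obtain ⟨O, s2, e2⟩ := H38.rdI_ex w s1 fun O s =>
    K.fc (Nat.mod s 256) fun m => K.rdCs A m (Nat.mod (Nat.div s 256) 64) (fun C s =>
      K.fc4 (K.sumF F) fun S => K.fc4 (K.mulI A O) fun P =>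
      K.okb (K.ands (K.ands (Nat.ble 1 m) (K.ands (K.prm A) (K.ands (K.negb (K.dotI O P))
          ((fun v : K.Cv => K.sigC A (K.getF F v.t0) (K.getF F v.t1) (K.getF F v.t2))
            (K.getC C 0)))))
        (K.ands (K.allF (fun e => K.ands (K.negb (K.dotI e P)) (K.isR A e)) F)
          (K.allC (K.cvC F n C m O S) C))) s) (Nat.div s 16384)
  rw [e2, fc_eq] at h
  clear e2
  set m := Nat.mod s2 256 with hm
  obtain ⟨C, s3, e3, hC, hU⟩ := rdCs_ex A m (Nat.mod (Nat.div s2 256) 64) (fun C s =>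
      K.fc4 (K.sumF F) fun S => K.fc4 (K.mulI A O) fun P =>
      K.okb (K.ands (K.ands (Nat.ble 1 m) (K.ands (K.prm A) (K.ands (K.negb (K.dotI O P))
          ((fun v : K.Cv => K.sigC A (K.getF F v.t0) (K.getF F v.t1) (K.getF F v.t2))
            (K.getC C 0)))))
        (K.ands (K.allF (fun e => K.ands (K.negb (K.dotI e P)) (K.isR A e)) F)
          (K.allC (K.cvC F n C m O S) C))) s) (Nat.div s2 16384)
  rw [e3, H38.fc4_eq, H38.fc4_eq] at h
  clear e3
  have hb := okb_neK h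
  simp only [ands_iff, negb_iff, dotI_mulI] at hb
  obtain ⟨⟨hm1, hp, hO, hsig⟩, hFs, hCs⟩ := hb
  have hm1' : 1 ≤ m := by simpa [Nat.ble_eq] using hm1
  have hm0 : 0 < m := hm1'
  have hFs' : ∀ i < n, bz (matI A) (vI (K.getF F i)) (vI O) < 0 ∧
      IsRoot (matI A) (vI (K.getF F i)) := by
    intro i hi
    have h5 := allF_spec _ _ hFs _ (getF_mem F i (by rw [hF]; exact hi))
    rw [ands_iff, negb_iff, isR_iff] at h5
    exact h5
  have hUi : ∀ i < m, (K.getC C i).U = K.mulI A (K.getC C i).V := fun i hi =>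
    hU _ (getC_mem C i (by rw [hC]; exact hi))
  have hCs' : ∀ i < m, _ := fun i hi => cvC_spec A F n C m O (K.sumF F) (K.getC C i) (hUi i hi)
    hUi (allC_spec _ _ hCs _ (getC_mem C i (by rw [hC]; exact hi)))
  set G := matI A with hG
  have hsym : G.transpose = G := matI_symm A
  have hS : Sig31 G := by
    obtain ⟨-, -, ⟨t0, t1, t2, -⟩, -⟩ := hCs' 0 hm0
    obtain ⟨g1, g2, g3, g4⟩ := sigC_spec A _ _ _ hsig (hFs' _ t1).2.pos (hFs' _ t2).2.pos
    exact h1 G hsym g1 _ _ _ g2 g3 g4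
  -- the family
  have hO' : br G (up (vI O)) (up (vI O)) < 0 := by
    rw [br_up]; exact_mod_cast hO
  have hcone : ∃ c : ℝ, 0 < c ∧ ∀ x : R4,
      (∀ i : Fin n, br G x (up (vI (K.getF F i))) ≤ 0) →
      br G x x ≤ -c * (br G x (up (vI O))) ^ 2 := by
    let t : Fin m → Fin 3 → Fin n := fun a => ![⟨(K.getC C a).t0, (hCs' a a.2).2.2.1.1⟩,
      ⟨(K.getC C a).t1, (hCs' a a.2).2.2.1.2.1⟩, ⟨(K.getC C a).t2, (hCs' a a.2).2.2.1.2.2.1⟩]
    let nb : Fin m → Fin 3 → Fin m := fun a => ![⟨(K.getC C a).n0, (hCs' a a.2).2.2.1.2.2.2.1⟩,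
      ⟨(K.getC C a).n1, (hCs' a a.2).2.2.1.2.2.2.2.1⟩,
      ⟨(K.getC C a).n2, (hCs' a a.2).2.2.1.2.2.2.2.2⟩]
    refine h2 G hsym hS n (fun i => vI (K.getF F i)) (vI O) m (fun a => vI (K.getC C a).V)
      t nb hm0 hO (fun i => ?_) (fun a => ?_) (fun a s => ?_) (fun a s s' => ?_)
    · rw [bz_commA]; exact (hFs' i i.2).1
    · obtain ⟨⟨a1, a2, a3⟩, -⟩ := hCs' a a.2
      refine ⟨a1, ?_, ?_⟩
      · rw [bz_commA]; exact a2
      · rw [bz_commA, sumF_bz A _ F n hF] at a3
        exact a3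
    · obtain ⟨-, ⟨a1, a2, a3⟩, -⟩ := hCs' a a.2
      fin_cases s
      · exact a1
      · exact a2
      · exact a3
    · obtain ⟨-, -, -, ⟨a1, a2, a3⟩, ⟨b1, b2, b3⟩, c1, c2, c3⟩ := hCs' a a.2
      fin_cases s <;> fin_cases s'
      · exact a1
      · exact a2
      · exact a3
      · exact b2
      · exact b1
      · exact b3
      · exact c2
      · exact c3
      · exact c1
  have hani : Anis G := h3 G hsym hS n (fun i => vI (K.getF F i)) (vI O)
    (fun i => (hFs' i i.2).2) hO (fun i => by rw [bz_commA]; exact (hFs' i i.2).1) hcone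
  have hL : Lat G := ⟨hsym, hS, hani⟩
  refine ⟨hL, (prm_iff A).1 hp, ?_⟩
  refine h4 G hL n (fun i => vI (K.getF F i)) (up (vI O)) (fun i => (hFs' i i.2).2) hO' ?_ hcone
  intro i
  rw [br_up]
  have : bz G (vI O) (vI (K.getF F i)) < 0 := by rw [bz_commA]; exact (hFs' i i.2).1
  exact_mod_cast this

theorem cmpT (h1 : CmpKStmt) : CmpTStmt := by
  intro ta j l
  induction l generalizing j with
  | nil => intro _ i hi; exact absurd hi (Nat.not_lt_zero _)
  | cons s l ih =>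
    intro h i hi
    have e : K.cmpT ta j (s :: l) = (Bool.rec false (K.cmpT ta (j + 1) l)
      (Nat.rec false (fun _ _ => true) (K.rowT ta j fun A => K.cmpK A s)) : Bool) := rfl
    rw [e] at h
    have e2 : (Nat.rec false (fun _ _ => true) (K.rowT ta j fun A => K.cmpK A s) : Bool) = true ∧
        K.cmpT ta (j + 1) l = true := by
      cases hb : (Nat.rec false (fun _ _ => true) (K.rowT ta j fun A => K.cmpK A s) : Bool)
      · rw [hb] at h
        exact absurd h (by simp)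
      · rw [hb] at h
        exact ⟨rfl, h⟩
    have e3 : K.rowT ta j (fun A => K.cmpK A s) ≠ 0 := by
      intro h0
      have := e2.1
      rw [h0] at this
      exact absurd this (by simp)
    cases i with
    | zero =>
      have e4 : K.rowT ta j (fun A => K.cmpK A s) = K.fc (Nat.mod (Nat.shiftRight ta
        (Nat.mul 240 j)) (Nat.pow 2 240)) fun r => K.fc10 (K.i10 24 r) (fun A => K.cmpK A s) := rfl
      rw [e4, fc_eq, fc10_eq] at e3
      exact h1 _ s e3
    | succ i =>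
      have h5 := ih (j + 1) e2.2 i (by simpa using hi)
      have : j + 1 + i = j + (i + 1) := by omega
      rwa [this] at h5

end Pool.Agent.Refl.H44
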