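import Pool.Agent.Helper44_Refl.Base

/-! Module KILLB. -/

namespace Pool.Agent.Refl.H44

open Matrix

/-! ### packed vectors -/

theorem Pg_add {c : K.Ctx} {x y t u : ℕ} {v w : Z4} (h1 : Pg c x t v) (h2 : Pg c y u w) :
    Pg c (x + y) (t + u) (v + w) := by
  unfold Pg at *
  push_cast
  rw [h1, h2, ← Finset.sum_add_distrib]
  refine Finset.sum_congr rfl fun j _ => ?_
  simp only [Pi.add_apply]
  ring

theorem Pg_smul {c : K.Ctx} {x t : ℕ} {v : Z4} (k : ℕ) (h1 : Pg c x t v) :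
    Pg c (k * x) (k * t) ((k : ℤ) • v) := by
  unfold Pg at *
  push_cast
  rw [h1, Finset.mul_sum]
  refine Finset.sum_congr rfl fun j _ => ?_
  simp only [Pi.smul_apply, smul_eq_mul]
  ring

theorem Pk_Pd {c : K.Ctx} {x : ℕ} {v : Z4} (h : Pk c x v) : Pd c x v := by
  refine ⟨1, h.1, fun j => ?_⟩
  have h1 := h.2 j
  rw [abs_le] at h1
  have h0 : (0 : ℤ) ≤ c.Q := by positivity
  push_cast
  constructor
  · linarith [h1.1]
  · have : (2 : ℤ) * c.Q ≤ 2 ^ 70 * c.Q := by nlinarith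
    linarith [h1.2]

theorem Pd_lin {c : K.Ctx} {a b k : ℕ} {A B : Z4} (hk : k < 4096) (ha : Pk c a A)
    (hb : Pk c b B) : Pd c (b + k * a) (B + (k : ℤ) • A) := by
  refine ⟨1 + k * 1, Pg_add hb.1 (Pg_smul k ha.1), fun j => ?_⟩
  have h1 := ha.2 j
  have h2 := hb.2 j
  rw [abs_le] at h1 h2
  have h0 : (0 : ℤ) ≤ c.Q := by positivity
  have hk' : (k : ℤ) < 4096 := by exact_mod_cast hk
  have hk0 : (0 : ℤ) ≤ k := by positivity
  have h3 : (k : ℤ) * A j ≤ k * c.Q := mul_le_mul_of_nonneg_left h1.2 hk0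
  have h4 : (k : ℤ) * -c.Q ≤ k * A j := mul_le_mul_of_nonneg_left h1.1 hk0
  simp only [Pi.add_apply, Pi.smul_apply, smul_eq_mul, mul_one]
  push_cast
  constructor
  · nlinarith
  · have : (k : ℤ) * c.Q ≤ 4096 * c.Q := mul_le_mul_of_nonneg_right hk'.le h0
    nlinarith

/-! ### algebra -/

theorem ent (M P : M4) (i j : Fin 4) : (M.transpose * P * M) i j =
    (fun k => M k i) ⬝ᵥ P.mulVec (fun k => M k j) := by
  rw [Matrix.mul_assoc]; rfl

theorem bil_symm {P : M4} (hP : P.transpose = P) (v w : Z4) :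
    v ⬝ᵥ P.mulVec w = w ⬝ᵥ P.mulVec v := by
  rw [Matrix.dotProduct_mulVec, ← Matrix.mulVec_transpose, hP, dotProduct_comm]

/-- elementary matrix -/
def tm (t1 t2 t3 : ℤ) : M4 := !![1, t1, t2, t3; 0, 1, 0, 0; 0, 0, 1, 0; 0, 0, 0, 1]

theorem tm_det (t1 t2 t3 : ℤ) : (tm t1 t2 t3).det = 1 := by
  simp [tm, Matrix.det_succ_column_zero, Fin.sum_univ_succ]

theorem tm_col (N : M4) (t1 t2 t3 : ℤ) (k j : Fin 4) :
    (N * tm t1 t2 t3) k j = N k j + ![0, t1, t2, t3] j * N k 0 := by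
  fin_cases j <;> simp [tm, Matrix.mul_apply, Fin.sum_univ_four] <;> ring

theorem gam {P N : M4} (hP : P.transpose = P) (q : ℤ) (t1 t2 t3 : ℤ)
    (h : ∀ j : Fin 4, j ≠ 0 → ∀ i : Fin 4, q ∣ (fun k => N k i) ⬝ᵥ
      P.mulVec ((fun k => N k j) + ![0, t1, t2, t3] j • (fun k => N k 0))) (i j : Fin 4)
    (hij : ¬ (i = 0 ∧ j = 0)) :
    q ∣ ((N * tm t1 t2 t3).transpose * P * (N * tm t1 t2 t3)) i j := by
  have hcol : ∀ j, (fun k => (N * tm t1 t2 t3) k j) =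
      (fun k => N k j) + ![0, t1, t2, t3] j • (fun k => N k 0) := by
    intro j; funext k; rw [tm_col]; simp
  have main : ∀ i j : Fin 4, j ≠ 0 →
      q ∣ ((N * tm t1 t2 t3).transpose * P * (N * tm t1 t2 t3)) i j := by
    intro i j hj
    rw [ent, hcol i, hcol j, add_dotProduct, smul_dotProduct]
    exact dvd_add (h j hj i) (Dvd.dvd.mul_left (h j hj 0) _)
  by_cases hj : j = 0
  · have hi : i ≠ 0 := fun hi => hij ⟨hi, hj⟩
    rw [ent, bil_symm hP, ← ent]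
    exact main j i hi
  · exact main i j hj

theorem smul_rel {a b : ℤ} {P F G : M4} (h : a • G = -(b • (F.transpose * P * F))) (W : M4) :
    a • (W.transpose * G * W) = -(b • ((F * W).transpose * P * (F * W))) := by
  have h1 : W.transpose * (a • G) * W = a • (W.transpose * G * W) := by
    rw [Matrix.mul_smul, Matrix.smul_mul]
  rw [← h1, h, Matrix.mul_neg, Matrix.neg_mul, Matrix.mul_smul, Matrix.smul_mul,
    Matrix.transpose_mul]
  simp only [Matrix.mul_assoc]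

theorem adj_rel (G W : M4) (i j : Fin 4) : W.det ^ 2 * G i j =
    ∑ k, ∑ l, W.adjugate k i * (W.transpose * G * W) k l * W.adjugate l j := by
  have h1 : W.adjugate.transpose * (W.transpose * G * W) * W.adjugate = W.det ^ 2 • G := by
    calc W.adjugate.transpose * (W.transpose * G * W) * W.adjugate =
        (W * W.adjugate).transpose * G * (W * W.adjugate) := by
          rw [Matrix.transpose_mul]; simp only [Matrix.mul_assoc]
      _ = _ := by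
          rw [Matrix.mul_adjugate, Matrix.transpose_smul, Matrix.transpose_one, Matrix.smul_mul,
            Matrix.one_mul, Matrix.mul_smul, Matrix.mul_one, smul_smul, sq]
  have h2 := congrFun (congrFun h1 i) j
  rw [Matrix.smul_apply, smul_eq_mul] at h2
  rw [← h2, Matrix.mul_apply]
  simp only [Matrix.mul_apply (M := W.adjugate.transpose), Matrix.transpose_apply, Finset.sum_mul]
  rw [Finset.sum_comm]

/-- if all entries but the first are divisible by `p`, the rank is at most one -/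
theorem notRk2 {p : ℕ} (hp : p.Prime) {G W : M4} (hW : ¬ (p : ℤ) ∣ W.det)
    (h : ∀ i j, ¬ (i = 0 ∧ j = 0) → (p : ℤ) ∣ (W.transpose * G * W) i j) : ¬ Rk2 p G := by
  have : Fact p.Prime := ⟨hp⟩
  rintro ⟨i, j, k, l, hm⟩
  apply hm
  have hz : ∀ i j, ¬ (i = 0 ∧ j = 0) → (((W.transpose * G * W) i j : ℤ) : ZMod p) = 0 := by
    intro i j hij
    exact (ZMod.intCast_zmod_eq_zero_iff_dvd _ _).mpr (h i j hij)
  have key : ∀ i j, ((W.det : ℤ) : ZMod p) ^ 2 * ((G i j : ℤ) : ZMod p) =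
      ((W.adjugate 0 i : ℤ) : ZMod p) * (((W.transpose * G * W) 0 0 : ℤ) : ZMod p) *
        ((W.adjugate 0 j : ℤ) : ZMod p) := by
    intro i j
    have h1 := congrArg (Int.cast : ℤ → ZMod p) (adj_rel G W i j)
    simp only [Int.cast_mul, Int.cast_pow, Int.cast_sum] at h1
    rw [h1]
    simp only [Fin.sum_univ_four]
    rw [hz 0 1 (by simp), hz 0 2 (by simp), hz 0 3 (by simp), hz 1 0 (by simp),
      hz 1 1 (by simp), hz 1 2 (by simp), hz 1 3 (by simp), hz 2 0 (by simp),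
      hz 2 1 (by simp), hz 2 2 (by simp), hz 2 3 (by simp), hz 3 0 (by simp),
      hz 3 1 (by simp), hz 3 2 (by simp), hz 3 3 (by simp)]
    ring
  have hd : ((W.det : ℤ) : ZMod p) ≠ 0 := by
    intro h0
    exact hW ((ZMod.intCast_zmod_eq_zero_iff_dvd _ _).mp h0)
  rw [← ZMod.intCast_zmod_eq_zero_iff_dvd]
  simp only [Int.cast_mul, Int.cast_sub]
  have h4 : ((W.det : ℤ) : ZMod p) ^ 4 * (((G i k : ℤ) : ZMod p) * ((G j l : ℤ) : ZMod p) -
      ((G i l : ℤ) : ZMod p) * ((G j k : ℤ) : ZMod p)) = 0 := by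
    have e : ((W.det : ℤ) : ZMod p) ^ 4 * (((G i k : ℤ) : ZMod p) * ((G j l : ℤ) : ZMod p) -
      ((G i l : ℤ) : ZMod p) * ((G j k : ℤ) : ZMod p)) =
      (((W.det : ℤ) : ZMod p) ^ 2 * ((G i k : ℤ) : ZMod p)) *
        (((W.det : ℤ) : ZMod p) ^ 2 * ((G j l : ℤ) : ZMod p)) -
      (((W.det : ℤ) : ZMod p) ^ 2 * ((G i l : ℤ) : ZMod p)) *
        (((W.det : ℤ) : ZMod p) ^ 2 * ((G j k : ℤ) : ZMod p)) := by ring
    rw [e, key, key, key, key]
    ring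
  rcases mul_eq_zero.mp h4 with h5 | h5
  · exact absurd (pow_eq_zero_iff (by norm_num) |>.mp h5) hd
  · exact h5

/-- the entries of the Gram matrix in the two normalisations -/
theorem val_lemma {p : ℕ} (hp : p.Prime) (v : ℕ) {a b g0 g Γ0 Γ : ℤ} (ha : a ≠ 0)
    (h0 : a * g0 = -(b * Γ0)) (h1 : a * g = -(b * Γ)) (hn : ¬ (p : ℤ) ^ (v + 1) ∣ Γ0)
    (hd : (p : ℤ) ^ (v + 1) ∣ Γ) : (p : ℤ) ∣ g := by
  have hΓ0 : Γ0 ≠ 0 := by rintro rfl; exact hn (dvd_zero _)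
  have hpz : Prime (p : ℤ) := Nat.prime_iff_prime_int.mp hp
  obtain ⟨γ, hm, hγ⟩ :=
    (FiniteMultiplicity.of_prime_left hpz hΓ0).exists_eq_pow_mul_and_not_dvd
  set m := multiplicity (p : ℤ) Γ0 with hmdef
  have hmv : m + 1 ≤ v + 1 := by
    by_contra hlt
    apply hn
    rw [hm]
    exact Dvd.dvd.mul_right (pow_dvd_pow _ (by omega)) _
  obtain ⟨δ, hδ⟩ := (pow_dvd_pow (p : ℤ) hmv).trans hd
  have h2 : a * (γ * g) = a * (p * (δ * g0)) := by
    calc a * (γ * g) = γ * (a * g) := by ring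
      _ = γ * -(b * Γ) := by rw [h1]
      _ = p * δ * -(b * (p ^ m * γ)) := by rw [hδ]; ring
      _ = p * δ * (a * g0) := by rw [h0, ← hm]
      _ = _ := by ring
  have h3 := mul_left_cancel₀ ha h2
  have h4 : (p : ℤ) ∣ γ * g := ⟨_, h3⟩
  exact (hpz.dvd_or_dvd h4).resolve_left hγ

/-! ### reading the kernel functions -/

theorem dt_dvd (h2 : Pack2Stmt) {c : K.Ctx} {D0 : ℕ} {P : M4} (hc : CtxP c D0 P)
    {x y q q' : ℕ} {v w : Z4} (hx : Pd c x v) (hy : Pd c y w) (hq : 0 < q) (hq' : 0 < q')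
    (hd : q' ∣ q) (hQ : q ∣ c.Q) :
    Nat.beq (K.dt c (K.zr c x q) y q') 0 = true ↔ (q' : ℤ) ∣ w ⬝ᵥ P.mulVec v := by
  have h := h2 c D0 x y q q' P v w hc hx hy hq hq' hd hQ
  rw [beq_iff, Int.dvd_iff_emod_eq_zero, ← h]
  exact Int.natCast_eq_zero.symm

theorem orth_dvd (h2 : Pack2Stmt) {c : K.Ctx} {D0 : ℕ} {P : M4} (hc : CtxP c D0 P)
    {n0 n1 n2 n3 : ℕ} {N : M4} (hN : PkN c n0 n1 n2 n3 N)
    {x q q' : ℕ} {v : Z4} (hx : Pd c x v) (hq : 0 < q) (hq' : 0 < q')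
    (hd : q' ∣ q) (hQ : q ∣ c.Q) (h : K.orth c q' n0 n1 n2 n3 (K.zr c x q) = true) (i : Fin 4) :
    (q' : ℤ) ∣ (fun k => N k i) ⬝ᵥ P.mulVec v := by
  unfold K.orth at h
  simp only [ands_iff] at h
  obtain ⟨⟨e0, e1⟩, e2, e3⟩ := h
  rw [← dt_dvd h2 hc hx (Pk_Pd (hN i)) hq hq' hd hQ]
  fin_cases i
  · exact e0
  · exact e1
  · exact e2
  · exact e3

/-- data of a node, at a prime `p` which does not divide the index -/
def Nd (c : K.Ctx) (F : M4) (p : ℕ) (n : Fin 4 → ℕ) : Prop :=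
  ∃ N W : M4, F * W = N ∧ PkN c (n 0) (n 1) (n 2) (n 3) N ∧ ¬ (p : ℤ) ∣ W.det

theorem Nd_perm {c : K.Ctx} {F : M4} {p : ℕ} {n : Fin 4 → ℕ} (σ : Equiv.Perm (Fin 4))
    (h : Nd c F p n) : Nd c F p (n ∘ σ) := by
  obtain ⟨N, W, h1, h2, h3⟩ := h
  refine ⟨N.submatrix id σ, W.submatrix id σ, ?_, PkN_perm σ h2, ?_⟩
  · rw [← h1]; rfl
  · intro hd
    rw [Matrix.det_permute', Int.cast_id] at hd
    exact h3 ((IsUnit.dvd_mul_left (Units.isUnit _)).mp hd)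

theorem Nd_of {c : K.Ctx} {D0 : ℕ} {F : M4} {n0 n1 n2 n3 D cl p : ℕ} {ex : List ℕ}
    (hp : p.Prime) (h : NodeOK c D0 F n0 n1 n2 n3 D cl ex) (hc : K.clo D cl p = true) :
    Nd c F p ![n0, n1, n2, n3] := by
  obtain ⟨N, W, h1, h2, h3, _, _, h6, _⟩ := h
  refine ⟨N, W, h1, h2, ?_⟩
  rcases clo_iff.mp hc with h | h
  · intro hd
    apply h
    rw [← h3, ← h1, Matrix.det_mul, Int.natAbs_mul]
    exact Dvd.dvd.mul_left (Int.natCast_dvd.mp hd) _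
  · exact h6 p hp h

/-- all four pivots -/
theorem piv_nd {c : K.Ctx} {F : M4} {p : ℕ} {n0 n1 n2 n3 i : ℕ} {f : ℕ → ℕ → ℕ → ℕ → ℕ}
    (h : Nd c F p ![n0, n1, n2, n3]) (hf : K.piv i f n0 n1 n2 n3 ≠ 0) :
    ∃ a b d e : ℕ, Nd c F p ![a, b, d, e] ∧ f a b d e ≠ 0 := by
  have hp : ∀ σ : Equiv.Perm (Fin 4), ∀ a b d e : ℕ,
      (![n0, n1, n2, n3] ∘ σ) = ![a, b, d, e] → Nd c F p ![a, b, d, e] := by
    intro σ a b d e he
    rw [← he]
    exact Nd_perm σ h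
  rcases piv_cases i f n0 n1 n2 n3 with h1 | h1 | h1 | h1 <;> rw [h1] at hf
  · exact ⟨_, _, _, _, h, hf⟩
  · refine ⟨_, _, _, _, hp ⟨![1, 0, 2, 3], ![1, 0, 2, 3], by decide, by decide⟩ _ _ _ _ ?_, hf⟩
    funext j; fin_cases j <;> rfl
  · refine ⟨_, _, _, _, hp ⟨![2, 0, 1, 3], ![1, 2, 0, 3], by decide, by decide⟩ _ _ _ _ ?_, hf⟩
    funext j; fin_cases j <;> rfl
  · refine ⟨_, _, _, _, hp ⟨![3, 0, 1, 2], ![1, 2, 3, 0], by decide, by decide⟩ _ _ _ _ ?_, hf⟩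
    funext j; fin_cases j <;> rfl

/-- the three combinations -/
theorem comb {c : K.Ctx} {a b d e : ℕ} {N : M4} (hN : PkN c a b d e N) {t1 t2 t3 : ℕ}
    (h1 : t1 < 4096) (h2 : t2 < 4096) (h3 : t3 < 4096) :
    Pd c (b + t1 * a) ((fun k => N k 1) + (t1 : ℤ) • (fun k => N k 0)) ∧
    Pd c (d + t2 * a) ((fun k => N k 2) + (t2 : ℤ) • (fun k => N k 0)) ∧
    Pd c (e + t3 * a) ((fun k => N k 3) + (t3 : ℤ) • (fun k => N k 0)) :=
  ⟨Pd_lin h1 (hN 0) (hN 1), Pd_lin h2 (hN 0) (hN 2), Pd_lin h3 (hN 0) (hN 3)⟩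

theorem digits {p s : ℕ} (hp : 0 < p) : s % p ^ 3 % p < p ∧ s % p ^ 3 / p % p < p ∧
    s % p ^ 3 / p ^ 2 < p := by
  refine ⟨Nat.mod_lt _ hp, Nat.mod_lt _ hp, ?_⟩
  rw [Nat.div_lt_iff_lt_mul (by positivity)]
  calc s % p ^ 3 < p ^ 3 := Nat.mod_lt _ (by positivity)
    _ = p * p ^ 2 := by ring

theorem gam00 (N P : M4) (t1 t2 t3 : ℤ) :
    ((N * tm t1 t2 t3).transpose * P * (N * tm t1 t2 t3)) 0 0 =
      (fun k => N k 0) ⬝ᵥ P.mulVec (fun k => N k 0) := by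
  have hcol : (fun k => (N * tm t1 t2 t3) k 0) = (fun k => N k 0) := by
    funext k; rw [tm_col]; simp
  rw [ent, hcol]

/-- the orthogonality relations give the Gram matrix in the new basis -/
theorem gam' {P N : M4} (hP : P.transpose = P) (q : ℤ) (t1 t2 t3 : ℕ)
    (o1 : ∀ i, q ∣ (fun k => N k i) ⬝ᵥ
      P.mulVec ((fun k => N k 1) + (t1 : ℤ) • (fun k => N k 0)))
    (o2 : ∀ i, q ∣ (fun k => N k i) ⬝ᵥ
      P.mulVec ((fun k => N k 2) + (t2 : ℤ) • (fun k => N k 0)))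
    (o3 : ∀ i, q ∣ (fun k => N k i) ⬝ᵥ
      P.mulVec ((fun k => N k 3) + (t3 : ℤ) • (fun k => N k 0))) (i j : Fin 4)
    (hij : ¬ (i = 0 ∧ j = 0)) :
    q ∣ ((N * tm t1 t2 t3).transpose * P * (N * tm t1 t2 t3)) i j := by
  apply gam hP q t1 t2 t3 _ i j hij
  intro j hj i
  fin_cases j
  · exact absurd rfl hj
  · exact o1 i
  · exact o2 i
  · exact o3 i

theorem rk_false (h2 : Pack2Stmt) {c : K.Ctx} {D0 : ℕ} {P F G : M4} {a' b' : ℤ}
    (hc : CtxP c D0 P) (ha : a' ≠ 0) (rel : a' • G = -(b' • (F.transpose * P * F)))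
    {p v s a b d e : ℕ} (hp : p.Prime) (hp' : p < 4096) (hQ : p ^ (v + 1) ∣ c.Q)
    (hn : Nd c F p ![a, b, d, e]) (h : K.rk c p v s a b d e ≠ 0) : ¬ Rk2 p G := by
  obtain ⟨N, W, hFW, hN, hW⟩ := hn
  have hp0 := hp.pos
  have hq : 0 < p ^ (v + 1) := by positivity
  unfold K.rk at h
  simp only [fc_eq] at h
  rw [okb_ne] at h
  simp only [ands_iff] at h
  obtain ⟨c1, c2, c3, c4⟩ := h
  obtain ⟨l1, l2, l3⟩ := digits (s := s) hp0
  obtain ⟨p1, p2, p3⟩ := comb hN (l1.trans hp') (l2.trans hp') (l3.trans hp')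
  have o1 := orth_dvd h2 hc hN p1 hq hq dvd_rfl hQ c2
  have o2 := orth_dvd h2 hc hN p2 hq hq dvd_rfl hQ c3
  have o3 := orth_dvd h2 hc hN p3 hq hq dvd_rfl hQ c4
  rw [notb_iff] at c1
  have c1' : ¬ ((p ^ (v + 1) : ℕ) : ℤ) ∣ (fun k => N k 0) ⬝ᵥ P.mulVec (fun k => N k 0) :=
    fun hd => c1 ((dt_dvd h2 hc (Pk_Pd (hN 0)) (Pk_Pd (hN 0)) hq hq dvd_rfl hQ).mpr hd)
  set t1 := s % p ^ 3 % p
  set t2 := s % p ^ 3 / p % p
  set t3 := s % p ^ 3 / p ^ 2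
  have hG := gam' hc.symm _ t1 t2 t3 o1 o2 o3
  have hrel := smul_rel rel (W * tm t1 t2 t3)
  have hFT : F * (W * tm t1 t2 t3) = N * tm t1 t2 t3 := by rw [← Matrix.mul_assoc, hFW]
  rw [hFT] at hrel
  have hrel' : ∀ i j, a' * ((W * tm t1 t2 t3).transpose * G * (W * tm t1 t2 t3)) i j =
      -(b' * ((N * tm t1 t2 t3).transpose * P * (N * tm t1 t2 t3)) i j) := by
    intro i j
    have := congrFun (congrFun hrel i) j
    simpa only [Matrix.smul_apply, Matrix.neg_apply, smul_eq_mul] using this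
  apply notRk2 hp (W := W * tm t1 t2 t3)
  · rw [Matrix.det_mul, tm_det, mul_one]; exact hW
  · intro i j hij
    refine val_lemma hp v ha (hrel' 0 0) (hrel' i j) ?_ ?_
    · rw [gam00]; exact_mod_cast c1'
    · exact_mod_cast hG i j hij

/-! ### rank one at larger primes -/

theorem m3_zmod {p a1 a2 a3 b1 b2 b3 d1 d2 d3 : ℕ}
    (h : K.m3 p a1 a2 a3 b1 b2 b3 d1 d2 d3 = true) :
    (!![(a1 : ZMod p), a2, a3; b1, b2, b3; d1, d2, d3]).det ≠ 0 := by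
  unfold K.m3 at h
  rw [notb_iff, beq_iff] at h
  intro h0
  apply h
  have h1 : (((a1 * b2) * d3 + ((a2 * b3) * d1 + (a3 * b1) * d2) : ℕ) : ZMod p) =
      (((a1 * b3) * d2 + ((a2 * b1) * d3 + (a3 * b2) * d1) : ℕ) : ZMod p) := by
    rw [Matrix.det_fin_three] at h0
    simp at h0
    push_cast
    linear_combination h0
  exact (ZMod.natCast_eq_natCast_iff' _ _ _).mp h1

theorem div_zmod {p q1 D : ℕ} {δ : ℤ} (hq1 : 0 < q1)
    (h : (D : ℤ) = ((q1 : ℤ) * δ) % ((p * q1 : ℕ) : ℤ)) : ((D / q1 : ℕ) : ZMod p) = (δ : ZMod p) := by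
  have h1 : ((q1 : ℤ) * δ) % ((p * q1 : ℕ) : ℤ) = q1 * (δ % p) := by
    push_cast
    rw [mul_comm (p : ℤ) q1]
    exact Int.mul_emod_mul_of_pos _ _ (by exact_mod_cast hq1)
  rw [h1] at h
  have h2 : ((D / q1 : ℕ) : ℤ) = δ % p := by
    rw [Int.natCast_div, h]
    exact Int.mul_ediv_cancel_left _ (by positivity)
  have h3 : (((D / q1 : ℕ) : ℤ) : ZMod p) = ((δ % p : ℤ) : ZMod p) := by rw [h2]
  rw [ZMod.intCast_mod] at h3
  rw [← h3, Int.cast_natCast]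

theorem prim_of {p : ℕ} (hp : p.Prime) {G W : M4} (hW : ¬ (p : ℤ) ∣ W.det) (hG : PrimG G)
    (h : ∀ i j, (p : ℤ) ∣ (W.transpose * G * W) i j) : False := by
  have hpz : Prime (p : ℤ) := Nat.prime_iff_prime_int.mp hp
  apply hpz.not_isUnit
  apply hG
  intro i j
  have h1 : (p : ℤ) ∣ W.det ^ 2 * G i j := by
    rw [adj_rel]
    refine Finset.dvd_sum fun k _ => Finset.dvd_sum fun l _ => ?_
    exact Dvd.dvd.mul_right (Dvd.dvd.mul_left (h k l) _) _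
  rcases hpz.dvd_or_dvd h1 with h2 | h2
  · exact absurd (hpz.dvd_of_dvd_pow h2) hW
  · exact h2

/-- a vector violating `SSF` gives a solution of the linear system -/
theorem ssf_false {p : ℕ} (hp : p.Prime) {G W Γ : M4} {a b : ℤ} (ha : a ≠ 0)
    (hW : ¬ (p : ℤ) ∣ W.det) (hG : PrimG G) (v : ℕ)
    (hrel : ∀ i j, a * (W.transpose * G * W) i j = -(b * Γ i j))
    (h0 : ¬ (p : ℤ) ^ (v + 1) ∣ Γ 0 0) (h0' : (p : ℤ) ^ v ∣ Γ 0 0) (δ : M4)
    (hδ : ∀ i j, ¬ (i = 0 ∧ j = 0) → Γ i j = (p : ℤ) ^ (v + 1) * δ i j)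
    (hdet : (!![(δ 1 1 : ZMod p), (δ 1 2 : ZMod p), (δ 1 3 : ZMod p); (δ 2 1 : ZMod p),
      (δ 2 2 : ZMod p), (δ 2 3 : ZMod p); (δ 3 1 : ZMod p), (δ 3 2 : ZMod p),
      (δ 3 3 : ZMod p)]).det ≠ 0) : SSF p G := by
  have : Fact p.Prime := ⟨hp⟩
  have hpz : Prime (p : ℤ) := Nat.prime_iff_prime_int.mp hp
  have hp0 : (p : ℤ) ≠ 0 := hpz.ne_zero
  intro x hx
  set G' := W.transpose * G * W with hG'
  set y := W.adjugate.mulVec x with hy
  have hWy : W.mulVec y = W.det • x := by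
    rw [hy, Matrix.mulVec_mulVec, Matrix.mul_adjugate, Matrix.smul_mulVec, Matrix.one_mulVec]
  have hGy : ∀ i, (p : ℤ) ^ 2 ∣ G'.mulVec y i := by
    intro i
    have e : G'.mulVec y = W.det • W.transpose.mulVec (G.mulVec x) := by
      rw [hG', ← Matrix.mulVec_mulVec, hWy, Matrix.mulVec_smul, ← Matrix.mulVec_mulVec]
    rw [e, Pi.smul_apply, smul_eq_mul]
    apply Dvd.dvd.mul_left
    change (p : ℤ) ^ 2 ∣ ∑ j, W.transpose i j * G.mulVec x j
    exact Finset.dvd_sum fun j _ => Dvd.dvd.mul_left (hx j) _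
  obtain ⟨γ, hγ⟩ := h0'
  have hγp : ¬ (p : ℤ) ∣ γ := by
    rintro ⟨u, rfl⟩
    apply h0
    exact ⟨u, by rw [hγ]; ring⟩
  -- other entries
  have hG1 : ∀ i j, ¬ (i = 0 ∧ j = 0) → (p : ℤ) ∣ G' i j := fun i j hij =>
    val_lemma hp v ha (hrel 0 0) (hrel i j) h0 ⟨_, hδ i j hij⟩
  have hG0 : ¬ (p : ℤ) ∣ G' 0 0 := by
    intro hd
    apply prim_of hp hW hG
    intro i j
    by_cases hij : i = 0 ∧ j = 0
    · rw [hij.1, hij.2]; exact hd
    · exact hG1 i j hij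
  have hγG : ∀ i j, ¬ (i = 0 ∧ j = 0) → γ * G' i j = p * (δ i j * G' 0 0) := by
    intro i j hij
    apply mul_left_cancel₀ ha
    calc a * (γ * G' i j) = γ * (a * G' i j) := by ring
      _ = γ * -(b * (p ^ (v + 1) * δ i j)) := by rw [hrel, hδ i j hij]
      _ = p * δ i j * -(b * (p ^ v * γ)) := by ring
      _ = p * δ i j * (a * G' 0 0) := by rw [hrel 0 0, hγ]
      _ = _ := by ring
  have hy0 : (p : ℤ) ∣ y 0 := by
    have h1 : (p : ℤ) ∣ G'.mulVec y 0 := (Dvd.intro_left _ (sq (p : ℤ)).symm).trans (hGy 0)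
    simp only [Matrix.mulVec, dotProduct, Fin.sum_univ_four] at h1
    have h2 := hG1 0 1 (by simp)
    have h3 := hG1 0 2 (by simp)
    have h4 := hG1 0 3 (by simp)
    have h5 : (p : ℤ) ∣ G' 0 0 * y 0 := by
      have h6 : G' 0 0 * y 0 = (G' 0 0 * y 0 + G' 0 1 * y 1 + G' 0 2 * y 2 + G' 0 3 * y 3) -
        (G' 0 1 * y 1 + G' 0 2 * y 2 + G' 0 3 * y 3) := by ring
      rw [h6]
      exact dvd_sub h1 (dvd_add (dvd_add (h2.mul_right _) (h3.mul_right _)) (h4.mul_right _))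
    exact (hpz.dvd_or_dvd h5).resolve_left hG0
  have hrow : ∀ i : Fin 4, i ≠ 0 → (p : ℤ) ∣ δ i 1 * y 1 + δ i 2 * y 2 + δ i 3 * y 3 := by
    intro i hi
    have h1 : (p : ℤ) ^ 2 ∣ γ * G'.mulVec y i := (hGy i).mul_left _
    have e : γ * G'.mulVec y i = p * (G' 0 0 * (δ i 0 * y 0 + (δ i 1 * y 1 + δ i 2 * y 2 +
        δ i 3 * y 3))) := by
      simp only [Matrix.mulVec, dotProduct, Fin.sum_univ_four]
      have e0 := hγG i 0 (by simp [hi])
      have e1 := hγG i 1 (by simp)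
      have e2 := hγG i 2 (by simp)
      have e3 := hγG i 3 (by simp)
      linear_combination y 0 * e0 + y 1 * e1 + y 2 * e2 + y 3 * e3
    rw [e, sq] at h1
    have h2 := (mul_dvd_mul_iff_left hp0).mp h1
    have h3 := (hpz.dvd_or_dvd h2).resolve_left hG0
    exact (dvd_add_right (hy0.mul_left _)).mp h3
  -- solve the system
  have hsys : (!![(δ 1 1 : ZMod p), (δ 1 2 : ZMod p), (δ 1 3 : ZMod p); (δ 2 1 : ZMod p),
      (δ 2 2 : ZMod p), (δ 2 3 : ZMod p); (δ 3 1 : ZMod p), (δ 3 2 : ZMod p),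
      (δ 3 3 : ZMod p)]).mulVec ![(y 1 : ZMod p), (y 2 : ZMod p), (y 3 : ZMod p)] = 0 := by
    have h1 := (ZMod.intCast_zmod_eq_zero_iff_dvd _ p).mpr (hrow 1 (by simp))
    have h2 := (ZMod.intCast_zmod_eq_zero_iff_dvd _ p).mpr (hrow 2 (by simp))
    have h3 := (ZMod.intCast_zmod_eq_zero_iff_dvd _ p).mpr (hrow 3 (by simp))
    push_cast at h1 h2 h3
    funext i
    fin_cases i
    · simpa [Matrix.mulVec, dotProduct, Fin.sum_univ_three] using h1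
    · simpa [Matrix.mulVec, dotProduct, Fin.sum_univ_three] using h2
    · simpa [Matrix.mulVec, dotProduct, Fin.sum_univ_three] using h3
  have hz := Matrix.eq_zero_of_mulVec_eq_zero hdet hsys
  have hyall : ∀ j, (p : ℤ) ∣ y j := by
    intro j
    fin_cases j
    · exact hy0
    · exact (ZMod.intCast_zmod_eq_zero_iff_dvd _ p).mp (congrFun hz 0)
    · exact (ZMod.intCast_zmod_eq_zero_iff_dvd _ p).mp (congrFun hz 1)
    · exact (ZMod.intCast_zmod_eq_zero_iff_dvd _ p).mp (congrFun hz 2)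
  intro i
  have h1 : (p : ℤ) ∣ (W.mulVec y) i := by
    simp only [Matrix.mulVec, dotProduct]
    exact Finset.dvd_sum fun j _ => Dvd.dvd.mul_left (hyall j) _
  rw [hWy, Pi.smul_apply, smul_eq_mul] at h1
  exact (hpz.dvd_or_dvd h1).resolve_left hW

theorem rk11_false (h2 : Pack2Stmt) {c : K.Ctx} {D0 : ℕ} {P F G : M4} {a' b' : ℤ}
    (hc : CtxP c D0 P) (ha : a' ≠ 0) (hG : PrimG G)
    (rel : a' • G = -(b' • (F.transpose * P * F)))
    {p v s a b d e : ℕ} (hp : p.Prime) (hp' : p < 4096) (hQ : p ^ (v + 2) ∣ c.Q)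
    (hn : Nd c F p ![a, b, d, e]) (h : K.rk11 c p v s a b d e ≠ 0) : ¬ Rk2 p G ∧ SSF p G := by
  obtain ⟨N, W, hFW, hN, hW⟩ := hn
  have hp0 := hp.pos
  have hq1 : 0 < p ^ (v + 1) := by positivity
  have hq : 0 < p * p ^ (v + 1) := by positivity
  have hQ' : p * p ^ (v + 1) ∣ c.Q := by
    have : p * p ^ (v + 1) = p ^ (v + 2) := by ring
    rw [this]; exact hQ
  have hd1 : p ^ (v + 1) ∣ p * p ^ (v + 1) := Dvd.intro_left _ rfl
  have hQ1 : p ^ (v + 1) ∣ c.Q := hd1.trans hQ'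
  unfold K.rk11 at h
  simp only [fc_eq] at h
  rw [okb_ne] at h
  simp only [ands_iff] at h
  obtain ⟨⟨c1, c2⟩, ⟨c3, c4, c5⟩, c6⟩ := h
  obtain ⟨l1, l2, l3⟩ := digits (s := s) hp0
  obtain ⟨p1, p2, p3⟩ := comb hN (l1.trans hp') (l2.trans hp') (l3.trans hp')
  have o1 := orth_dvd h2 hc hN p1 hq hq1 hd1 hQ' c3
  have o2 := orth_dvd h2 hc hN p2 hq hq1 hd1 hQ' c4
  have o3 := orth_dvd h2 hc hN p3 hq hq1 hd1 hQ' c5
  rw [notb_iff] at c1
  have c1' : ¬ ((p ^ (v + 1) : ℕ) : ℤ) ∣ (fun k => N k 0) ⬝ᵥ P.mulVec (fun k => N k 0) :=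
    fun hd => c1 ((dt_dvd h2 hc (Pk_Pd (hN 0)) (Pk_Pd (hN 0)) hq1 hq1 dvd_rfl hQ1).mpr hd)
  have c2' : ((p : ℤ) ^ v) ∣ (fun k => N k 0) ⬝ᵥ P.mulVec (fun k => N k 0) := by
    have e := h2 c D0 _ _ _ _ P _ _ hc (Pk_Pd (hN 0)) (Pk_Pd (hN 0)) hq hq dvd_rfl hQ'
    rw [beq_iff] at c2
    have e2 : p ^ v ∣ K.dt c (K.zr c a (p * p ^ (v + 1))) a (p * p ^ (v + 1)) :=
      Nat.dvd_of_mod_eq_zero c2
    have e3 : ((p ^ v : ℕ) : ℤ) ∣ ((K.dt c (K.zr c a (p * p ^ (v + 1))) a (p * p ^ (v + 1)) : ℕ) :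
      ℤ) := by exact_mod_cast e2
    have e4 : ((K.dt c (K.zr c a (p * p ^ (v + 1))) a (p * p ^ (v + 1)) : ℕ) : ℤ) = _ := e
    rw [e4] at e3
    have e5 : ((p ^ v : ℕ) : ℤ) ∣ ((p * p ^ (v + 1) : ℕ) : ℤ) := by
      have : p ^ v ∣ p * p ^ (v + 1) := ⟨p ^ 2, by ring⟩
      exact_mod_cast this
    have e6 : ((p ^ v : ℕ) : ℤ) ∣ (fun k => N k 0) ⬝ᵥ P.mulVec (fun k => N k 0) := by
      rw [← Int.emod_add_mul_ediv ((fun k => N k 0) ⬝ᵥ P.mulVec (fun k => N k 0))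
        ((p * p ^ (v + 1) : ℕ) : ℤ)]
      exact dvd_add e3 (e5.mul_right _)
    exact_mod_cast e6
  set t1 := s % p ^ 3 % p
  set t2 := s % p ^ 3 / p % p
  set t3 := s % p ^ 3 / p ^ 2
  have hGm := gam' hc.symm _ t1 t2 t3 o1 o2 o3
  have hrel := smul_rel rel (W * tm t1 t2 t3)
  have hFT : F * (W * tm t1 t2 t3) = N * tm t1 t2 t3 := by rw [← Matrix.mul_assoc, hFW]
  rw [hFT] at hrel
  have hrel' : ∀ i j, a' * ((W * tm t1 t2 t3).transpose * G * (W * tm t1 t2 t3)) i j =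
      -(b' * ((N * tm t1 t2 t3).transpose * P * (N * tm t1 t2 t3)) i j) := by
    intro i j
    have := congrFun (congrFun hrel i) j
    simpa only [Matrix.smul_apply, Matrix.neg_apply, smul_eq_mul] using this
  have hWd : ¬ (p : ℤ) ∣ (W * tm t1 t2 t3).det := by
    rw [Matrix.det_mul, tm_det, mul_one]; exact hW
  have h00 : ¬ (p : ℤ) ^ (v + 1) ∣
      ((N * tm t1 t2 t3).transpose * P * (N * tm t1 t2 t3)) 0 0 := by
    rw [gam00]; exact_mod_cast c1'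
  refine ⟨?_, ?_⟩
  · apply notRk2 hp hWd
    intro i j hij
    refine val_lemma hp v ha (hrel' 0 0) (hrel' i j) h00 ?_
    exact_mod_cast hGm i j hij
  -- the reduced matrix
  have hex : ∀ i j : Fin 4, ∃ x : ℤ, ¬ (i = 0 ∧ j = 0) →
      ((N * tm t1 t2 t3).transpose * P * (N * tm t1 t2 t3)) i j = (p : ℤ) ^ (v + 1) * x := by
    intro i j
    by_cases hij : i = 0 ∧ j = 0
    · exact ⟨0, fun h => absurd hij h⟩
    · obtain ⟨x, hx⟩ := hGm i j hij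
      exact ⟨x, fun _ => by rw [hx]; push_cast; ring⟩
  choose δ hδ using hex
  refine ssf_false hp ha hWd hG v hrel' h00 (by rw [gam00]; exact c2') δ hδ ?_
  have hcol : ∀ j, (fun k => (N * tm t1 t2 t3) k j) =
      (fun k => N k j) + ![0, (t1 : ℤ), t2, t3] j • (fun k => N k 0) := by
    intro j; funext k; rw [tm_col]; simp
  have hm := m3_zmod c6
  -- the entries
  have hent : ∀ (i j : Fin 4) (x y : ℕ), i ≠ 0 → j ≠ 0 →
      Pd c x ((fun k => N k i) + ![0, (t1 : ℤ), t2, t3] i • (fun k => N k 0)) →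
      Pd c y ((fun k => N k j) + ![0, (t1 : ℤ), t2, t3] j • (fun k => N k 0)) →
      ((K.dt c (K.zr c x (p * p ^ (v + 1))) y (p * p ^ (v + 1)) / p ^ (v + 1) : ℕ) : ZMod p) =
        (δ i j : ZMod p) := by
    intro i j x y hi hj hx hy
    apply div_zmod hq1
    rw [h2 c D0 _ _ _ _ P _ _ hc hx hy hq hq dvd_rfl hQ', ← hcol, ← hcol,
      bil_symm hc.symm, ← ent, hδ i j (fun h => hi h.1)]
    push_cast
    rfl
  have q1 : Pd c (b + t1 * a) ((fun k => N k 1) + ![0, (t1 : ℤ), t2, t3] 1 • (fun k => N k 0)) :=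
    p1
  have q2 : Pd c (d + t2 * a) ((fun k => N k 2) + ![0, (t1 : ℤ), t2, t3] 2 • (fun k => N k 0)) :=
    p2
  have q3 : Pd c (e + t3 * a) ((fun k => N k 3) + ![0, (t1 : ℤ), t2, t3] 3 • (fun k => N k 0)) :=
    p3
  rw [← hent 1 1 _ _ (by simp) (by simp) q1 q1, ← hent 1 2 _ _ (by simp) (by simp) q1 q2,
    ← hent 1 3 _ _ (by simp) (by simp) q1 q3, ← hent 2 1 _ _ (by simp) (by simp) q2 q1,
    ← hent 2 2 _ _ (by simp) (by simp) q2 q2, ← hent 2 3 _ _ (by simp) (by simp) q2 q3,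
    ← hent 3 1 _ _ (by simp) (by simp) q3 q1, ← hent 3 2 _ _ (by simp) (by simp) q3 q2,
    ← hent 3 3 _ _ (by simp) (by simp) q3 q3]
  exact hm

/-! ### the module -/

theorem killb (h2 : Pack2Stmt) (hPr : PrimeStmt) : KillBStmt := by
  intro c D0 P F G a b nd e n0 n1 n2 n3 D cl ex s henv hnode
  constructor
  · by_contra hne
    unfold K.kRank at hne
    simp only [fc_eq] at hne
    rw [← ne_eq, brec_ne, ands_iff, beq_iff] at hne
    obtain ⟨⟨hcl, hQ⟩, hpiv⟩ := hne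
    set p := K.sel ((s.mod 512).mod 4) 2 3 5 7 with hpdef
    have hpm : p ∈ [2, 3, 5, 7] := by
      rcases sel_cases ((s.mod 512).mod 4) 2 3 5 7 with h | h | h | h <;> rw [hpdef, h] <;> simp
    have hp : p.Prime ∧ p < 4096 := by
      simp only [List.mem_cons, List.not_mem_nil, or_false] at hpm
      rcases hpm with h | h | h | h <;> rw [h] <;> norm_num
    obtain ⟨a1, b1, d1, e1, hn, hf⟩ := piv_nd (Nd_of hp.1 hnode hcl) hpiv
    exact rk_false h2 henv.ctx henv.a0.ne' henv.rel hp.1 hp.2 (Nat.dvd_of_mod_eq_zero hQ) hn hf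
      (henv.red.2.1 p hpm).2
  · by_contra hne
    unfold K.kRank11 at hne
    simp only [fc_eq] at hne
    rw [← ne_eq, brec_ne] at hne
    simp only [ands_iff, beq_iff, ble_iff] at hne
    obtain ⟨⟨⟨h8, hpr⟩, hcl, hQ⟩, hpiv⟩ := hne
    obtain ⟨hp, hp'⟩ := hPr _ hpr
    obtain ⟨a1, b1, d1, e1, hn, hf⟩ := piv_nd (Nd_of hp hnode hcl) hpiv
    have hh := rk11_false h2 henv.ctx henv.a0.ne' henv.red.1 henv.rel hp hp'
      (Nat.dvd_of_mod_eq_zero hQ) hn hf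
    exact hh.1 (henv.red.2.2 _ hp h8 hh.2)

end Pool.Agent.Refl.H44
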