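import Pool.Agent.Helper23_Refl.StmtC5
import Pool.Agent.Helper38_Refl.StartC

/-!
# PKZ, ACT: packed vectors
-/

namespace Pool.Agent.Refl.H44

open Matrix Pool.Agent.Refl Pool.Agent.Refl.H93 Pool.Agent.Refl.H38

/-- packing of four natural numbers -/
theorem p4_eq (a b c d : ℕ) : K.p4 a b c d =
    a + 65536 * b + 4294967296 * c + 281474976710656 * d := by
  unfold K.p4
  show a + 65536 * b + (4294967296 * c + 281474976710656 * d) = _
  ring

theorem pkZ_p4 (m : ℕ) (x : Z4) : pkZ m x =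
    K.p4 (x 0 % m).toNat (x 1 % m).toNat (x 2 % m).toNat (x 3 % m).toNat := by
  rw [p4_eq, pkZ]

theorem dig0_p4 (a b c d : ℕ) (ha : a < 65536) : K.dig0 (K.p4 a b c d) = a := by
  rw [p4_eq]
  show (a + 65536 * b + 4294967296 * c + 281474976710656 * d) % 65536 = a
  omega

theorem dig1_p4 (a b c d : ℕ) (ha : a < 65536) (hb : b < 65536) :
    K.dig1 (K.p4 a b c d) = b := by
  rw [p4_eq]
  show (a + 65536 * b + 4294967296 * c + 281474976710656 * d) / 65536 % 65536 = b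
  omega

theorem dig2_p4 (a b c d : ℕ) (ha : a < 65536) (hb : b < 65536) (hc : c < 65536) :
    K.dig2 (K.p4 a b c d) = c := by
  rw [p4_eq]
  show (a + 65536 * b + 4294967296 * c + 281474976710656 * d) / 4294967296 % 65536 = c
  omega

theorem dig3_p4 (a b c d : ℕ) (ha : a < 65536) (hb : b < 65536) (hc : c < 65536) :
    K.dig3 (K.p4 a b c d) = d := by
  rw [p4_eq]
  show (a + 65536 * b + 4294967296 * c + 281474976710656 * d) / 281474976710656 = d
  omega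

theorem p4_inj {a b c d a' b' c' d' : ℕ} (ha : a < 65536) (hb : b < 65536) (hc : c < 65536)
    (ha' : a' < 65536) (hb' : b' < 65536) (hc' : c' < 65536)
    (h : K.p4 a b c d = K.p4 a' b' c' d') : a = a' ∧ b = b' ∧ c = c' ∧ d = d' := by
  refine ⟨?_, ?_, ?_, ?_⟩
  · rw [← dig0_p4 a b c d ha, h, dig0_p4 _ _ _ _ ha']
  · rw [← dig1_p4 a b c d ha hb, h, dig1_p4 _ _ _ _ ha' hb']
  · rw [← dig2_p4 a b c d ha hb hc, h, dig2_p4 _ _ _ _ ha' hb' hc']
  · rw [← dig3_p4 a b c d ha hb hc, h, dig3_p4 _ _ _ _ ha' hb' hc']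

theorem res_lt (m : ℕ) (h1 : 1 ≤ m) (h2 : m ≤ 127) (x : ℤ) : (x % m).toNat < m ∧
    (x % m).toNat < 65536 ∧ (((x % m).toNat : ℕ) : ℤ) = x % m := by
  have h3 : 0 ≤ x % m := Int.emod_nonneg _ (by omega)
  have h4 : x % m < m := Int.emod_lt_of_pos _ (by omega)
  refine ⟨by omega, by omega, Int.toNat_of_nonneg h3⟩

theorem redm_p4 (m a b c d : ℕ) (ha : a < 65536) (hb : b < 65536) (hc : c < 65536) :
    K.redm m (K.p4 a b c d) = K.p4 (a % m) (b % m) (c % m) (d % m) := by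
  unfold K.redm
  rw [dig0_p4 a b c d ha, dig1_p4 a b c d ha hb, dig2_p4 a b c d ha hb hc,
    dig3_p4 a b c d ha hb hc]
  rfl

theorem toNat_mod (a m : ℕ) : (((a : ℤ)) % m).toNat = a % m := by
  rw [← Int.natCast_mod]
  exact Int.toNat_natCast _

theorem modI_eq (m : ℕ) (h1 : 1 ≤ m) (x : ℤ) : K.modI x m = (x % m).toNat := by
  cases x with
  | ofNat n =>
    show n % m = _
    exact (toNat_mod n m).symm
  | negSucc n =>
    show (m - 1) - n % m = _
    have h2 : n % m < m := Nat.mod_lt _ h1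
    have h3 : Int.negSucc n % (m : ℤ) = ((m - 1 - n % m : ℕ) : ℤ) := by
      have e1 : Int.negSucc n = ((m - 1 - n % m : ℕ) : ℤ) + (m : ℤ) * (-(n / m : ℕ) - 1) := by
        rw [Int.negSucc_eq]
        have e2 : (n : ℤ) = (m : ℤ) * (n / m : ℕ) + (n % m : ℕ) := by
          exact_mod_cast (Nat.div_add_mod n m).symm
        have e3 : ((m - 1 - n % m : ℕ) : ℤ) = (m : ℤ) - 1 - (n % m : ℕ) := by
          rw [Nat.cast_sub (by omega), Nat.cast_sub h1]
          simp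
        rw [e3]
        linear_combination -e2
      rw [e1, Int.add_mul_emod_self_left]
      exact_mod_cast Nat.mod_eq_of_lt (by omega)
    rw [h3, Int.toNat_natCast]

theorem pkZ_eq_iff (m : ℕ) (h1 : 1 ≤ m) (h2 : m ≤ 127) (x y : Z4) :
    pkZ m x = pkZ m y ↔ Cg m x y := by
  rw [pkZ_p4, pkZ_p4]
  constructor
  · intro h
    obtain ⟨e0, e1, e2, e3⟩ := p4_inj (res_lt m h1 h2 (x 0)).2.1 (res_lt m h1 h2 (x 1)).2.1
      (res_lt m h1 h2 (x 2)).2.1 (res_lt m h1 h2 (y 0)).2.1 (res_lt m h1 h2 (y 1)).2.1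
      (res_lt m h1 h2 (y 2)).2.1 h
    have key : ∀ a b : ℤ, (a % m).toNat = (b % m).toNat → (m : ℤ) ∣ a - b := by
      intro a b hab
      have h3 : a % m = b % m := by
        rw [← (res_lt m h1 h2 a).2.2, ← (res_lt m h1 h2 b).2.2, hab]
      exact Int.dvd_of_emod_eq_zero (by rw [Int.sub_emod, h3]; simp)
    intro i
    fin_cases i
    · exact key _ _ e0
    · exact key _ _ e1
    · exact key _ _ e2
    · exact key _ _ e3
  · intro h
    have key : ∀ i, (x i % m).toNat = (y i % m).toNat := by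
      intro i
      have h3 : x i % m = y i % m := (Int.emod_emod_of_dvd _ (dvd_refl _)).symm.trans
        (by rw [Int.emod_emod_of_dvd _ (dvd_refl _)]; exact Int.emod_eq_emod_iff_emod_sub_eq_zero.2
              (Int.emod_eq_zero_of_dvd (h i)))
      rw [h3]
    rw [key 0, key 1, key 2, key 3]

theorem pkZ_dig (m : ℕ) (h1 : 1 ≤ m) (h2 : m ≤ 127) (x : Z4) :
    ((K.dig0 (pkZ m x) : ℕ) : ℤ) = x 0 % m ∧ ((K.dig1 (pkZ m x) : ℕ) : ℤ) = x 1 % m ∧
    ((K.dig2 (pkZ m x) : ℕ) : ℤ) = x 2 % m ∧ ((K.dig3 (pkZ m x) : ℕ) : ℤ) = x 3 % m := by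
  obtain ⟨-, a1, a2⟩ := res_lt m h1 h2 (x 0)
  obtain ⟨-, b1, b2⟩ := res_lt m h1 h2 (x 1)
  obtain ⟨-, c1, c2⟩ := res_lt m h1 h2 (x 2)
  obtain ⟨-, d1, d2⟩ := res_lt m h1 h2 (x 3)
  rw [pkZ_p4, dig0_p4 _ _ _ _ a1, dig1_p4 _ _ _ _ a1 b1, dig2_p4 _ _ _ _ a1 b1 c1,
    dig3_p4 _ _ _ _ a1 b1 c1]
  exact ⟨a2, b2, c2, d2⟩

theorem cg_emod (m : ℕ) (a : ℤ) : (m : ℤ) ∣ a % m - a := by
  have h := Int.emod_add_mul_ediv a m
  exact ⟨-(a / m), by linear_combination h⟩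

theorem pkZ_stmt : PkZStmt := by
  intro m h1 h2
  refine ⟨pkZ_eq_iff m h1 h2, ?_, ?_, pkZ_dig m h1 h2, ?_⟩
  · intro v
    rw [pkZ_p4]
    show K.p4 (K.modI v.x m) (K.modI v.y m) (K.modI v.z m) (K.modI v.w m) = _
    rw [modI_eq m h1, modI_eq m h1, modI_eq m h1, modI_eq m h1]
    rfl
  · intro x i
    obtain ⟨e0, e1, e2, e3⟩ := pkZ_dig m h1 h2 x
    fin_cases i
    · show (m : ℤ) ∣ ((K.dig0 (pkZ m x) : ℕ) : ℤ) - x 0
      rw [e0]; exact cg_emod m _
    · show (m : ℤ) ∣ ((K.dig1 (pkZ m x) : ℕ) : ℤ) - x 1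
      rw [e1]; exact cg_emod m _
    · show (m : ℤ) ∣ ((K.dig2 (pkZ m x) : ℕ) : ℤ) - x 2
      rw [e2]; exact cg_emod m _
    · show (m : ℤ) ∣ ((K.dig3 (pkZ m x) : ℕ) : ℤ) - x 3
      rw [e3]; exact cg_emod m _
  · intro a b c d ha hb hc hd
    rw [redm_p4 m a b c d ha hb hc, pkZ_p4]
    show _ = K.p4 (((a : ℤ)) % m).toNat (((b : ℤ)) % m).toNat (((c : ℤ)) % m).toNat
      (((d : ℤ)) % m).toNat
    rw [toNat_mod, toNat_mod, toNat_mod, toNat_mod]

/-! ### actions -/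

/-- the value of `lin4` on packed vectors -/
theorem lin4_p4 (a b c d : Fin 4 → ℕ) (x : ℕ) :
    K.lin4 (K.p4 (a 0) (a 1) (a 2) (a 3)) (K.p4 (b 0) (b 1) (b 2) (b 3))
      (K.p4 (c 0) (c 1) (c 2) (c 3)) (K.p4 (d 0) (d 1) (d 2) (d 3)) x =
    K.p4 (K.dig0 x * a 0 + K.dig1 x * b 0 + K.dig2 x * c 0 + K.dig3 x * d 0)
      (K.dig0 x * a 1 + K.dig1 x * b 1 + K.dig2 x * c 1 + K.dig3 x * d 1)
      (K.dig0 x * a 2 + K.dig1 x * b 2 + K.dig2 x * c 2 + K.dig3 x * d 2)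
      (K.dig0 x * a 3 + K.dig1 x * b 3 + K.dig2 x * c 3 + K.dig3 x * d 3) := by
  rw [p4_eq, p4_eq, p4_eq, p4_eq, p4_eq]
  show K.dig0 x * _ + K.dig1 x * _ + (K.dig2 x * _ + K.dig3 x * _) = _
  ring

/-- residues of the entries -/
def rs (m : ℕ) (v : Z4) (i : Fin 4) : ℕ := (v i % m).toNat

theorem pkZ_rs (m : ℕ) (v : Z4) : pkZ m v = K.p4 (rs m v 0) (rs m v 1) (rs m v 2) (rs m v 3) :=
  pkZ_p4 m v

theorem lin_spec (m : ℕ) (h1 : 1 ≤ m) (h2 : m ≤ 127) (S : M4) (x : Z4) :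
    K.redm m (K.lin4 (pkZ m (fun i => S i 0)) (pkZ m (fun i => S i 1)) (pkZ m (fun i => S i 2))
      (pkZ m (fun i => S i 3)) (pkZ m x)) = pkZ m (S.mulVec x) := by
  obtain ⟨e0, e1, e2, e3⟩ := pkZ_dig m h1 h2 x
  have hd : ∀ i, K.dig0 (pkZ m x) < m ∧ K.dig1 (pkZ m x) < m ∧ K.dig2 (pkZ m x) < m ∧
      K.dig3 (pkZ m x) < m ∧ ∀ v : Z4, rs m v i < m := by
    intro i
    have hp : (0 : ℤ) < m := by omega
    have a0 := Int.emod_lt_of_pos (x 0) hp
    have a1 := Int.emod_lt_of_pos (x 1) hp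
    have a2 := Int.emod_lt_of_pos (x 2) hp
    have a3 := Int.emod_lt_of_pos (x 3) hp
    rw [← e0] at a0
    rw [← e1] at a1
    rw [← e2] at a2
    rw [← e3] at a3
    exact ⟨by exact_mod_cast a0, by exact_mod_cast a1, by exact_mod_cast a2,
      by exact_mod_cast a3, fun v => (res_lt m h1 h2 (v i)).1⟩
  set d0 := K.dig0 (pkZ m x) with hd0
  set d1 := K.dig1 (pkZ m x) with hd1
  set d2 := K.dig2 (pkZ m x) with hd2
  set d3 := K.dig3 (pkZ m x) with hd3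
  have hb : ∀ i, d0 * rs m (fun k => S k 0) i + d1 * rs m (fun k => S k 1) i +
      d2 * rs m (fun k => S k 2) i + d3 * rs m (fun k => S k 3) i < 65536 := by
    intro i
    obtain ⟨b0, b1, b2, b3, br⟩ := hd i
    have r0 := br (fun k => S k 0)
    have r1 := br (fun k => S k 1)
    have r2 := br (fun k => S k 2)
    have r3 := br (fun k => S k 3)
    have t : ∀ u v : ℕ, u < m → v < m → u * v ≤ 126 * 126 := fun u v hu hv =>
      Nat.mul_le_mul (by omega) (by omega)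
    have := t _ _ b0 r0
    have := t _ _ b1 r1
    have := t _ _ b2 r2
    have := t _ _ b3 r3
    omega
  have hv : ∀ i, (d0 * rs m (fun k => S k 0) i + d1 * rs m (fun k => S k 1) i +
      d2 * rs m (fun k => S k 2) i + d3 * rs m (fun k => S k 3) i) % m =
      rs m (S.mulVec x) i := by
    intro i
    have hr : ∀ j, ((rs m (fun k => S k j) i : ℕ) : ℤ) = S i j % m := fun j =>
      (res_lt m h1 h2 (S i j)).2.2
    rw [← toNat_mod]
    show _ = ((S.mulVec x) i % m).toNat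
    congr 1
    have e4 : (S.mulVec x) i = S i 0 * x 0 + S i 1 * x 1 + S i 2 * x 2 + S i 3 * x 3 := by
      simp only [Matrix.mulVec, dotProduct, Fin.sum_univ_four]
    rw [e4]
    push_cast
    rw [hr, hr, hr, hr, hd0, hd1, hd2, hd3, e0, e1, e2, e3]
    apply Int.emod_eq_emod_iff_emod_sub_eq_zero.2
    apply Int.emod_eq_zero_of_dvd
    have k : ∀ a b : ℤ, (m : ℤ) ∣ a % m * (b % m) - b * a := by
      intro a b
      obtain ⟨u, hu⟩ := cg_emod m a
      obtain ⟨v, hv⟩ := cg_emod m b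
      refine ⟨u * (b % m) + a * v, ?_⟩
      have : a % m = a + m * u := by linear_combination hu
      have : b % m = b + m * v := by linear_combination hv
      linear_combination (b % m) * hu + a * hv
    have k0 := k (x 0) (S i 0)
    have k1 := k (x 1) (S i 1)
    have k2 := k (x 2) (S i 2)
    have k3 := k (x 3) (S i 3)
    have := dvd_add (dvd_add k0 k1) (dvd_add k2 k3)
    have e5 : x 0 % m * (S i 0 % m) + x 1 % m * (S i 1 % m) + x 2 % m * (S i 2 % m) +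
        x 3 % m * (S i 3 % m) - (S i 0 * x 0 + S i 1 * x 1 + S i 2 * x 2 + S i 3 * x 3) =
        x 0 % m * (S i 0 % m) - S i 0 * x 0 + (x 1 % m * (S i 1 % m) - S i 1 * x 1) +
        (x 2 % m * (S i 2 % m) - S i 2 * x 2 + (x 3 % m * (S i 3 % m) - S i 3 * x 3)) := by
      ring
    rw [e5]
    exact this
  rw [pkZ_rs m (fun i => S i 0), pkZ_rs m (fun i => S i 1), pkZ_rs m (fun i => S i 2),
    pkZ_rs m (fun i => S i 3), lin4_p4 (rs m fun i => S i 0) (rs m fun i => S i 1)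
    (rs m fun i => S i 2) (rs m fun i => S i 3), redm_p4 m _ _ _ _ (hb 0) (hb 1) (hb 2),
    hv 0, hv 1, hv 2, hv 3, pkZ_rs]

theorem act_stmt : ActStmt := by
  intro m M S x h1 h2 h3 h4
  refine ⟨?_, ?_, ?_⟩
  · have e : K.actC (gpZ m M S) m (pkZ m x) = K.fc (K.lin4 (pkZ m (fun i => S i 0))
      (pkZ m (fun i => S i 1)) (pkZ m (fun i => S i 2)) (pkZ m (fun i => S i 3)) (pkZ m x))
      fun y => K.redm m y := rfl
    rw [e, fc_eq, lin_spec m h1 h2 S x]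
  · have e : K.actR (gpZ m M S) m (pkZ m x) = K.fc (K.lin4 (pkZ m (S 0))
      (pkZ m (S 1)) (pkZ m (S 2)) (pkZ m (S 3)) (pkZ m x))
      fun y => K.redm m y := rfl
    rw [e, fc_eq]
    exact lin_spec m h1 h2 S.transpose x
  · have e : K.actM (gpZ m M S) M (pkZ M x) = K.fc (K.lin4 (pkZ M (fun i => S i 0))
      (pkZ M (fun i => S i 1)) (pkZ M (fun i => S i 2)) (pkZ M (fun i => S i 3)) (pkZ M x))
      fun y => K.redm M y := rfl
    rw [e, fc_eq, lin_spec M h3 h4 S x]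

end Pool.Agent.Refl.H44
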