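import Pool.Agent.Helper44_Refl.KillB

/-! Module SPLIT. -/

namespace Pool.Agent.Refl.H44

open Matrix

/-- natural coefficients as an integer vector -/
def zz (z : Fin 4 → ℕ) : Z4 := fun i => (z i : ℤ)

/-- `G` is the packed combination of the columns of `N` with coefficients `z` -/
def Rep (c : K.Ctx) (N : M4) (G tot : ℕ) (z : Fin 4 → ℕ) : Prop :=
  Pg c G tot (N.mulVec (zz z)) ∧ tot = ∑ i, z i

theorem Rep_add {c : K.Ctx} {N : M4} {G tot G1 T1 : ℕ} {z z1 : Fin 4 → ℕ}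
    (h : Rep c N G tot z) (h1 : Rep c N G1 T1 z1) : Rep c N (G + G1) (tot + T1) (z + z1) := by
  refine ⟨?_, ?_⟩
  · have e : zz (z + z1) = zz z + zz z1 := by
      funext i; simp [zz]
    rw [e, Matrix.mulVec_add]
    exact Pg_add h.1 h1.1
  · rw [h.2, h1.2, ← Finset.sum_add_distrib]
    rfl

theorem Rep_smul {c : K.Ctx} {N : M4} {G tot : ℕ} {z : Fin 4 → ℕ} (k : ℕ)
    (h : Rep c N G tot z) : Rep c N (k * G) (k * tot) (k • z) := by
  refine ⟨?_, ?_⟩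
  · have e : zz (k • z) = (k : ℤ) • zz z := by
      funext i; simp [zz]
    rw [e, Matrix.mulVec_smul]
    exact Pg_smul k h.1
  · rw [h.2, Finset.mul_sum]
    rfl

theorem Rep_basis {c : K.Ctx} {N : M4} {n : Fin 4 → ℕ} (h : PkN c (n 0) (n 1) (n 2) (n 3) N)
    (i : Fin 4) : Rep c N (n i) 1 (Pi.single i 1) := by
  refine ⟨?_, ?_⟩
  · have e : N.mulVec (zz (Pi.single i 1)) = fun j => N j i := by
      have : zz (Pi.single i 1) = Pi.single i 1 := by
        funext j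
        by_cases hj : j = i
        · subst hj; simp [zz]
        · simp [zz, hj]
      rw [this, Matrix.mulVec_single_one]
      rfl
    rw [e]
    have h1 := (h i).1
    have e1 : ![n 0, n 1, n 2, n 3] i = n i := by fin_cases i <;> rfl
    rwa [e1] at h1
  · simp

/-- the data of a node at which we split at the prime `p` -/
structure Sp (c : K.Ctx) (D0 : ℕ) (F N W : M4) (n : Fin 4 → ℕ) (D cl p : ℕ) : Prop where
  hc : CtxB c D0
  hp : p.Prime
  hp' : p < 4096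
  hQ : p ∣ c.Q
  fw : F * W = N
  pk : PkN c (n 0) (n 1) (n 2) (n 3) N
  det : N.det.natAbs = D
  Dpos : 0 < D
  bd : ∀ i j, |N i j| * (D : ℤ) ^ 2 ≤ 4096 * (D0 : ℤ) ^ 2
  cl : ∀ q : ℕ, q.Prime → q ∣ cl → ¬ (q : ℤ) ∣ W.det

/-- excluded vectors -/
def Ex (c : K.Ctx) (F : M4) (ex : List ℕ) : Prop :=
  ∀ x ∈ ex, ∃ v, Pk c x v ∧ ∀ y, F.mulVec y ≠ v

theorem Qbig {c : K.Ctx} {D0 : ℕ} (hc : CtxB c D0) : (4096 : ℤ) * (D0 : ℤ) ^ 2 ≤ c.Q := by
  have h : 4096 * D0 ^ 2 ≤ c.Q := by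
    rw [hc.Q]
    have h1 := hc.D
    calc 4096 * D0 ^ 2 ≤ 2 ^ 80 * D0 ^ 8 := by
          apply Nat.mul_le_mul (by norm_num)
          exact Nat.pow_le_pow_right h1 (by norm_num)
      _ ≤ 2 ^ 80 * (210 * D0) ^ 8 := by
          gcongr
          omega
  exact_mod_cast h

theorem mkv_pg {c : K.Ctx} {D0 : ℕ} (hc : CtxB c D0) {p tot G : ℕ} (hp : 0 < p) {V : Z4}
    (h : Pg c G tot ((p : ℤ) • V)) (hV : ∀ j, |V j| ≤ c.Q) : Pg c (K.mkv c p tot G) 1 V := by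
  have hnn : 0 ≤ ∑ j : Fin 4, (V j + ((1 : ℕ) : ℤ) * c.Q) * (c.B : ℤ) ^ (j : ℕ) := by
    apply Finset.sum_nonneg
    intro j _
    have := (abs_le.mp (hV j)).1
    have h2 : (0 : ℤ) ≤ V j + ((1 : ℕ) : ℤ) * c.Q := by push_cast; linarith
    positivity
  obtain ⟨Y, hY⟩ := Int.eq_ofNat_of_zero_le hnn
  have hOm : (c.Om : ℤ) = ∑ j : Fin 4, (c.Q : ℤ) * (c.B : ℤ) ^ (j : ℕ) := by
    rw [hc.Om, hc.B3, hc.B2]
    simp only [Fin.sum_univ_four]
    push_cast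
    norm_num
    ring
  have hG : G + p * c.Om = p * Y + c.Om * tot := by
    have : ((G + p * c.Om : ℕ) : ℤ) = ((p * Y + c.Om * tot : ℕ) : ℤ) := by
      push_cast
      rw [← hY]
      have h1 : (G : ℤ) = _ := h
      rw [h1, hOm]
      simp only [Fin.sum_univ_four, Pi.smul_apply, smul_eq_mul]
      push_cast
      ring
    exact_mod_cast this
  have hm : K.mkv c p tot G = Y := by
    change (G + p * c.Om - c.Om * tot) / p = Y
    rw [hG, Nat.add_sub_cancel, Nat.mul_div_cancel_left _ hp]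
  rw [hm]
  unfold Pg
  exact hY.symm

/-- admissible coefficients -/
structure Adm (N : M4) (p : ℕ) (r : Fin 4) (z : Fin 4 → ℕ) : Prop where
  one : z r = 1
  tot : ∑ i, z i ≤ p ^ 3
  dvd : ∀ i, (p : ℤ) ∣ N.mulVec (zz z) i

theorem det_upd (M : M4) (r : Fin 4) (z : Z4) (hz : z r = 1) :
    (M.updateCol r (M.mulVec z)).det = M.det := by
  have h := Matrix.det_updateCol_sum M r z
  rw [hz, one_smul] at h
  rw [← h]
  congr 2
  funext k
  simp [Matrix.mulVec, dotProduct, mul_comm]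

theorem det_upd_p (M : M4) (r : Fin 4) (z V : Z4) (hz : z r = 1) (p : ℤ)
    (h : p • V = M.mulVec z) : p * (M.updateCol r V).det = M.det := by
  rw [← Matrix.det_updateCol_smul, h, det_upd M r z hz]

theorem vec {c : K.Ctx} {D0 : ℕ} {F N W : M4} {n : Fin 4 → ℕ} {D cl p : ℕ}
    (S : Sp c D0 F N W n D cl p) {r : Fin 4} {z : Fin 4 → ℕ} (ha : Adm N p r z) {G tot : ℕ}
    (hr : Rep c N G tot z) : ∃ V : Z4, (p : ℤ) • V = N.mulVec (zz z) ∧
      Pk c (K.mkv c p tot G) V ∧ (∀ i, |V i| * ((D / p : ℕ) : ℤ) ^ 2 ≤ 4096 * (D0 : ℤ) ^ 2) ∧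
      (N.updateCol r V).det.natAbs = D / p ∧ 0 < D / p ∧ p * (D / p) = D := by
  choose V hV using ha.dvd
  have hp0 := S.hp.pos
  have hpz : (0 : ℤ) < p := by exact_mod_cast hp0
  have hVe : (p : ℤ) • V = N.mulVec (zz z) := by
    funext i; rw [hV i]; rfl
  have hz1 : (zz z) r = 1 := by simp [zz, ha.one]
  have hdet := det_upd_p N r (zz z) V hz1 p hVe
  have hD : p * (N.updateCol r V).det.natAbs = D := by
    rw [← S.det, ← hdet, Int.natAbs_mul, Int.natAbs_natCast]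
  have hDp : D / p = (N.updateCol r V).det.natAbs := by
    rw [← hD, Nat.mul_div_cancel_left _ hp0]
  have hpos : 0 < D / p := by
    rw [hDp]
    rcases Nat.eq_zero_or_pos (N.updateCol r V).det.natAbs with h | h
    · rw [h, mul_zero] at hD; exact absurd hD.symm S.Dpos.ne'
    · exact h
  have hmul : p * (D / p) = D := by rw [hDp]; exact hD
  have hbound : ∀ i, |V i| * ((D / p : ℕ) : ℤ) ^ 2 ≤ 4096 * (D0 : ℤ) ^ 2 := by
    intro i
    have h1 : (p : ℤ) * |V i| ≤ ∑ j, (z j : ℤ) * |N i j| := by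
      have e : (p : ℤ) * |V i| = |N.mulVec (zz z) i| := by
        rw [hV i, abs_mul, abs_of_pos hpz]
      have e2 : N.mulVec (zz z) i = ∑ j, N i j * zz z j := rfl
      rw [e, e2]
      calc |∑ j, N i j * zz z j| ≤ ∑ j, |N i j * zz z j| :=
            Finset.abs_sum_le_sum_abs (fun j => N i j * zz z j) Finset.univ
        _ = ∑ j, (z j : ℤ) * |N i j| := by
            refine Finset.sum_congr rfl fun j _ => ?_
            rw [abs_mul, mul_comm]
            congr 1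
            simp [zz]
    have h2 : (∑ j, (z j : ℤ) * |N i j|) * (D : ℤ) ^ 2 ≤
        (∑ j, (z j : ℤ)) * (4096 * (D0 : ℤ) ^ 2) := by
      rw [Finset.sum_mul, Finset.sum_mul]
      refine Finset.sum_le_sum fun j _ => ?_
      have hb := S.bd i j
      have hz0 : (0 : ℤ) ≤ (z j : ℤ) := Int.natCast_nonneg _
      rw [mul_assoc]
      exact mul_le_mul_of_nonneg_left hb hz0
    have h3 : (∑ j, (z j : ℤ)) ≤ (p : ℤ) ^ 3 := by
      have := ha.tot
      have h4 : ((∑ i, z i : ℕ) : ℤ) ≤ ((p ^ 3 : ℕ) : ℤ) := by exact_mod_cast this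
      push_cast at h4
      exact h4
    have hDz : (D : ℤ) = p * ((D / p : ℕ) : ℤ) := by exact_mod_cast hmul.symm
    have h5 : (p : ℤ) ^ 3 * (|V i| * ((D / p : ℕ) : ℤ) ^ 2) ≤
        (p : ℤ) ^ 3 * (4096 * (D0 : ℤ) ^ 2) := by
      calc (p : ℤ) ^ 3 * (|V i| * ((D / p : ℕ) : ℤ) ^ 2) =
          ((p : ℤ) * |V i|) * (D : ℤ) ^ 2 := by rw [hDz]; ring
        _ ≤ (∑ j, (z j : ℤ) * |N i j|) * (D : ℤ) ^ 2 := by gcongr
        _ ≤ _ := h2
        _ ≤ _ := by gcongr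
    exact le_of_mul_le_mul_left h5 (by positivity)
  have hVQ : ∀ j, |V j| ≤ c.Q := by
    intro j
    have h1 := hbound j
    have h2 : (1 : ℤ) ≤ ((D / p : ℕ) : ℤ) ^ 2 := by
      have : (1 : ℤ) ≤ ((D / p : ℕ) : ℤ) := by exact_mod_cast hpos
      nlinarith
    have h3 := Qbig S.hc
    nlinarith [abs_nonneg (V j)]
  refine ⟨V, hVe, ⟨mkv_pg S.hc hp0 (by rw [hVe]; exact hr.1) hVQ, hVQ⟩, hbound, hDp.symm, hpos,
    hmul⟩

theorem F_inj {c : K.Ctx} {D0 : ℕ} {F N W : M4} {n : Fin 4 → ℕ} {D cl p : ℕ}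
    (S : Sp c D0 F N W n D cl p) {x y : Z4} (h : F.mulVec x = F.mulVec y) : x = y := by
  have hF : F.det ≠ 0 := by
    intro h0
    have h1 := S.Dpos
    rw [← S.det, ← S.fw, Matrix.det_mul, h0, zero_mul] at h1
    simp at h1
  have h2 : F.mulVec (x - y) = 0 := by rw [Matrix.mulVec_sub, h, sub_self]
  exact sub_eq_zero.mp (Matrix.eq_zero_of_mulVec_eq_zero hF h2)

theorem N_mulVec {c : K.Ctx} {D0 : ℕ} {F N W : M4} {n : Fin 4 → ℕ} {D cl p : ℕ}
    (S : Sp c D0 F N W n D cl p) (z : Z4) : N.mulVec z = F.mulVec (W.mulVec z) := by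
  rw [Matrix.mulVec_mulVec, S.fw]

/-- `N z / p` is in the lattice if and only if `W z = 0` modulo `p` -/
theorem mem_iff {c : K.Ctx} {D0 : ℕ} {F N W : M4} {n : Fin 4 → ℕ} {D cl p : ℕ}
    (S : Sp c D0 F N W n D cl p) {z V : Z4} (hV : (p : ℤ) • V = N.mulVec z) :
    (∃ y, F.mulVec y = V) ↔ ∀ i, (p : ℤ) ∣ W.mulVec z i := by
  have hp0 : (p : ℤ) ≠ 0 := by exact_mod_cast S.hp.pos.ne'
  constructor
  · rintro ⟨y, hy⟩ i
    have h1 : (p : ℤ) • y = W.mulVec z := by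
      apply F_inj S
      rw [Matrix.mulVec_smul, hy, hV, N_mulVec S]
    rw [← h1]
    exact ⟨y i, rfl⟩
  · intro h
    choose y hy using h
    refine ⟨y, ?_⟩
    have h1 : W.mulVec z = (p : ℤ) • y := by funext i; rw [hy i]; rfl
    have h2 : (p : ℤ) • F.mulVec y = (p : ℤ) • V := by
      rw [← Matrix.mulVec_smul, ← h1, ← N_mulVec S, hV]
    funext i
    have h3 := congrFun h2 i
    simp only [Pi.smul_apply, smul_eq_mul] at h3
    exact mul_left_cancel₀ hp0 h3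

/-- coefficients whose vector is not in the lattice -/
def Bad (W : M4) (p : ℕ) (z : Fin 4 → ℕ) : Prop := ¬ ∀ i, (p : ℤ) ∣ W.mulVec (zz z) i

/-- new columns -/
def upd (n : Fin 4 → ℕ) (r : Fin 4) (v : ℕ) : Fin 4 → ℕ := Function.update n r v

theorem child {c : K.Ctx} {D0 : ℕ} {F N W : M4} {n : Fin 4 → ℕ} {D cl p : ℕ}
    (S : Sp c D0 F N W n D cl p) {r : Fin 4} {z : Fin 4 → ℕ} (ha : Adm N p r z) {G tot : ℕ}
    (hr : Rep c N G tot z) (hb : ¬ Bad W p z) {ex : List ℕ} (hex : Ex c F ex) :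
    NodeOK c D0 F (upd n r (K.mkv c p tot G) 0) (upd n r (K.mkv c p tot G) 1)
      (upd n r (K.mkv c p tot G) 2) (upd n r (K.mkv c p tot G) 3) (D / p) cl ex := by
  obtain ⟨V, hV, hVk, hVb, hVd, hpos, hmul⟩ := vec S ha hr
  have hp0 := S.hp.pos
  obtain ⟨y, hy⟩ := (mem_iff S hV).mpr (not_not.mp hb)
  have hpy : (p : ℤ) • y = W.mulVec (zz z) := by
    apply F_inj S
    rw [Matrix.mulVec_smul, hy, hV, N_mulVec S]
  have hz1 : (zz z) r = 1 := by simp [zz, ha.one]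
  have hWd := det_upd_p W r (zz z) y hz1 p hpy
  refine ⟨N.updateCol r V, W.updateCol r y, ?_, ?_, hVd, hpos, ?_, ?_, hex⟩
  · ext i j
    by_cases hj : j = r
    · subst hj
      rw [Matrix.updateCol_self, ← hy]
      simp [Matrix.mul_apply, Matrix.mulVec, dotProduct]
    · rw [Matrix.updateCol_ne hj, ← S.fw]
      simp [Matrix.mul_apply, Matrix.updateCol_ne hj]
  · intro i
    have e1 : ![upd n r (K.mkv c p tot G) 0, upd n r (K.mkv c p tot G) 1,
        upd n r (K.mkv c p tot G) 2, upd n r (K.mkv c p tot G) 3] i =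
        upd n r (K.mkv c p tot G) i := by fin_cases i <;> rfl
    rw [e1]
    by_cases hi : i = r
    · subst hi
      have e2 : (fun j => (N.updateCol i V) j i) = V := by
        funext j; rw [Matrix.updateCol_self]
      rw [e2]
      simpa [upd] using hVk
    · have e2 : (fun j => (N.updateCol r V) j i) = fun j => N j i := by
        funext j; rw [Matrix.updateCol_ne hi]
      rw [e2]
      have e3 : upd n r (K.mkv c p tot G) i = n i := by simp [upd, hi]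
      rw [e3]
      have h1 := S.pk i
      have e4 : ![n 0, n 1, n 2, n 3] i = n i := by fin_cases i <;> rfl
      rwa [e4] at h1
  · intro i j
    by_cases hj : j = r
    · subst hj
      rw [Matrix.updateCol_self]; exact hVb i
    · rw [Matrix.updateCol_ne hj]
      refine le_trans ?_ (S.bd i j)
      have h1 : ((D / p : ℕ) : ℤ) ≤ D := by exact_mod_cast Nat.div_le_self _ _
      have h2 : (0 : ℤ) ≤ ((D / p : ℕ) : ℤ) := by positivity
      gcongr
  · intro q hq hcl hd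
    apply S.cl q hq hcl
    rw [← hWd]
    exact hd.mul_left _

theorem excl {c : K.Ctx} {D0 : ℕ} {F N W : M4} {n : Fin 4 → ℕ} {D cl p : ℕ}
    (S : Sp c D0 F N W n D cl p) {r : Fin 4} {z : Fin 4 → ℕ} (ha : Adm N p r z) {G tot : ℕ}
    (hr : Rep c N G tot z) (hb : Bad W p z) {ex : List ℕ} (hex : Ex c F ex) :
    Ex c F (K.mkv c p tot G :: ex) := by
  obtain ⟨V, hV, hVk, _⟩ := vec S ha hr
  intro x hx
  rcases List.mem_cons.mp hx with rfl | hx
  · refine ⟨V, hVk, ?_⟩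
    intro y hy
    exact hb ((mem_iff S hV).mp ⟨y, hy⟩)
  · exact hex x hx

theorem final {c : K.Ctx} {D0 : ℕ} {F N W : M4} {n : Fin 4 → ℕ} {D cl p : ℕ}
    (S : Sp c D0 F N W n D cl p) (h : ¬ (p : ℤ) ∣ W.det) :
    NodeOK c D0 F (n 0) (n 1) (n 2) (n 3) D (cl * p) [] := by
  refine ⟨N, W, S.fw, S.pk, S.det, S.Dpos, S.bd, ?_, by simp⟩
  intro q hq hcl
  rcases hq.dvd_mul.mp hcl with h1 | h1
  · exact S.cl q hq h1
  · rw [(Nat.prime_dvd_prime_iff_eq hq S.hp).mp h1]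
    exact h

/-! ### loops -/

theorem lx_sound {c : K.Ctx} {D0 : ℕ} {F N W : M4} {n : Fin 4 → ℕ} {D cl p : ℕ}
    (S : Sp c D0 F N W n D cl p) (r : Fin 4) {call : ℕ → ℕ → List ℕ → ℕ}
    {K' : ℕ → List ℕ → ℕ} {T : Prop}
    (hcall : ∀ v s ex, NodeOK c D0 F (upd n r v 0) (upd n r v 1) (upd n r v 2) (upd n r v 3)
      (D / p) cl ex → call v s ex ≠ 0 → T) {G1 T1 : ℕ} {z1 : Fin 4 → ℕ}
    (h1 : Rep c N G1 T1 z1) : ∀ (k G tot : ℕ) (z : Fin 4 → ℕ), Rep c N G tot z →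
    (∀ i < k, Adm N p r (z + i • z1)) →
    ((∀ i < k, Bad W p (z + i • z1)) → ∀ s ex, Ex c F ex → K' s ex ≠ 0 → T) →
    ∀ s ex, Ex c F ex → K.lx c p call G1 T1 K' k G tot s ex ≠ 0 → T := by
  intro k
  induction k with
  | zero =>
    intro G tot z hz ha hK s ex hex h
    exact hK (fun i hi => absurd hi (Nat.not_lt_zero _)) s ex hex h
  | succ k ih =>
    intro G tot z hz ha hK s ex hex h
    have e : K.lx c p call G1 T1 K' (k + 1) G tot s ex =
        K.fc (K.mkv c p tot G) (fun v => Nat.rec 0 (fun s' _ =>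
          K.lx c p call G1 T1 K' k (Nat.add G G1) (Nat.add tot T1) s' (List.cons v ex))
          (call v s ex)) := rfl
    rw [e, fc_eq] at h
    have ha0 := ha 0 (Nat.succ_pos _)
    rw [zero_smul, add_zero] at ha0
    by_cases hb : Bad W p z
    · have hex' := excl S ha0 hz hb hex
      generalize hcr : call (K.mkv c p tot G) s ex = cr at h
      rcases cr with _ | s'
      · exact absurd rfl h
      · refine ih (G + G1) (tot + T1) (z + z1) (Rep_add hz h1) ?_ ?_ s' _ hex' h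
        · intro i hi
          have := ha (i + 1) (Nat.succ_lt_succ hi)
          have e2 : z + (i + 1) • z1 = z + z1 + i • z1 := by
            rw [add_smul, one_smul]; abel
          rwa [e2] at this
        · intro hB
          apply hK
          intro i hi
          rcases i with _ | i
          · rw [zero_smul, add_zero]; exact hb
          · have e2 : z + (i + 1) • z1 = z + z1 + i • z1 := by
              rw [add_smul, one_smul]; abel
            rw [e2]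
            exact hB i (Nat.lt_of_succ_lt_succ hi)
    · have hn := child S ha0 hz hb hex
      apply hcall _ s ex hn
      intro h0
      rw [h0] at h
      exact h rfl

theorem ly_sound {c : K.Ctx} {D0 : ℕ} {F N W : M4} {n : Fin 4 → ℕ} {D cl p : ℕ}
    (S : Sp c D0 F N W n D cl p) (r : Fin 4) {call : ℕ → ℕ → List ℕ → ℕ}
    {K' : ℕ → List ℕ → ℕ} {T : Prop}
    (hcall : ∀ v s ex, NodeOK c D0 F (upd n r v 0) (upd n r v 1) (upd n r v 2) (upd n r v 3)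
      (D / p) cl ex → call v s ex ≠ 0 → T) {G1 T1 G2 T2 : ℕ} {z1 z2 : Fin 4 → ℕ}
    (h1 : Rep c N G1 T1 z1) (h2 : Rep c N G2 T2 z2) :
    ∀ (k G tot : ℕ) (z : Fin 4 → ℕ), Rep c N G tot z →
    (∀ j < k, ∀ i < p, Adm N p r (z + j • z2 + i • z1)) →
    ((∀ j < k, ∀ i < p, Bad W p (z + j • z2 + i • z1)) →
      ∀ s ex, Ex c F ex → K' s ex ≠ 0 → T) →
    ∀ s ex, Ex c F ex → K.ly c p call G1 T1 G2 T2 K' k G tot s ex ≠ 0 → T := by
  intro k
  induction k with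
  | zero =>
    intro G tot z hz ha hK s ex hex h
    exact hK (fun i hi => absurd hi (Nat.not_lt_zero _)) s ex hex h
  | succ k ih =>
    intro G tot z hz ha hK s ex hex h
    have e : K.ly c p call G1 T1 G2 T2 K' (k + 1) G tot s ex =
        K.lx c p call G1 T1 (fun s' ex' => K.ly c p call G1 T1 G2 T2 K' k (Nat.add G G2)
          (Nat.add tot T2) s' ex') p G tot s ex := rfl
    rw [e] at h
    refine lx_sound S r hcall h1 p G tot z hz ?_ ?_ s ex hex h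
    · intro i hi
      have := ha 0 (Nat.succ_pos _) i hi
      rwa [zero_smul, add_zero] at this
    · intro hB s' ex' hex' h'
      refine ih (G + G2) (tot + T2) (z + z2) (Rep_add hz h2) ?_ ?_ s' ex' hex' h'
      · intro j hj i hi
        have := ha (j + 1) (Nat.succ_lt_succ hj) i hi
        have e2 : z + (j + 1) • z2 = z + z2 + j • z2 := by
          rw [add_smul, one_smul]; abel
        rwa [e2] at this
      · intro hB'
        apply hK
        intro j hj i hi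
        rcases j with _ | j
        · rw [zero_smul, add_zero]; exact hB i hi
        · have e2 : z + (j + 1) • z2 = z + z2 + j • z2 := by
            rw [add_smul, one_smul]; abel
          rw [e2]
          exact hB' j (Nat.lt_of_succ_lt_succ hj) i hi

theorem lz_sound {c : K.Ctx} {D0 : ℕ} {F N W : M4} {n : Fin 4 → ℕ} {D cl p : ℕ}
    (S : Sp c D0 F N W n D cl p) (r : Fin 4) {call : ℕ → ℕ → List ℕ → ℕ}
    {K' : ℕ → List ℕ → ℕ} {T : Prop}
    (hcall : ∀ v s ex, NodeOK c D0 F (upd n r v 0) (upd n r v 1) (upd n r v 2) (upd n r v 3)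
      (D / p) cl ex → call v s ex ≠ 0 → T) {G1 T1 G2 T2 G3 T3 : ℕ} {z1 z2 z3 : Fin 4 → ℕ}
    (h1 : Rep c N G1 T1 z1) (h2 : Rep c N G2 T2 z2) (h3 : Rep c N G3 T3 z3) :
    ∀ (k G tot : ℕ) (z : Fin 4 → ℕ), Rep c N G tot z →
    (∀ l < k, ∀ j < p, ∀ i < p, Adm N p r (z + l • z3 + j • z2 + i • z1)) →
    ((∀ l < k, ∀ j < p, ∀ i < p, Bad W p (z + l • z3 + j • z2 + i • z1)) →
      ∀ s ex, Ex c F ex → K' s ex ≠ 0 → T) →
    ∀ s ex, Ex c F ex → K.lz c p call G1 T1 G2 T2 G3 T3 K' k G tot s ex ≠ 0 → T := by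
  intro k
  induction k with
  | zero =>
    intro G tot z hz ha hK s ex hex h
    exact hK (fun i hi => absurd hi (Nat.not_lt_zero _)) s ex hex h
  | succ k ih =>
    intro G tot z hz ha hK s ex hex h
    have e : K.lz c p call G1 T1 G2 T2 G3 T3 K' (k + 1) G tot s ex =
        K.ly c p call G1 T1 G2 T2 (fun s' ex' => K.lz c p call G1 T1 G2 T2 G3 T3 K' k
          (Nat.add G G3) (Nat.add tot T3) s' ex') p G tot s ex := rfl
    rw [e] at h
    refine ly_sound S r hcall h1 h2 p G tot z hz ?_ ?_ s ex hex h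
    · intro j hj i hi
      have := ha 0 (Nat.succ_pos _) j hj i hi
      rwa [zero_smul, add_zero] at this
    · intro hB s' ex' hex' h'
      refine ih (G + G3) (tot + T3) (z + z3) (Rep_add hz h3) ?_ ?_ s' ex' hex' h'
      · intro l hl j hj i hi
        have := ha (l + 1) (Nat.succ_lt_succ hl) j hj i hi
        have e2 : z + (l + 1) • z3 = z + z3 + l • z3 := by
          rw [add_smul, one_smul]; abel
        rwa [e2] at this
      · intro hB'
        apply hK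
        intro l hl j hj i hi
        rcases l with _ | l
        · rw [zero_smul, add_zero]; exact hB j hj i hi
        · have e2 : z + (l + 1) • z3 = z + z3 + l • z3 := by
            rw [add_smul, one_smul]; abel
          rw [e2]
          exact hB' l (Nat.lt_of_succ_lt_succ hl) j hj i hi

/-! ### lines in the kernel -/

/-- reduction modulo `p` -/
abbrev mp (p : ℕ) (M : M4) : Matrix (Fin 4) (Fin 4) (ZMod p) := M.map (Int.cast : ℤ → ZMod p)

/-- coefficients modulo `p` -/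
def zp (p : ℕ) (z : Fin 4 → ℕ) : Fin 4 → ZMod p := fun i => (z i : ZMod p)

theorem zp_add (p : ℕ) (z z1 : Fin 4 → ℕ) : zp p (z + z1) = zp p z + zp p z1 := by
  funext i; simp [zp]

theorem zp_smul (p k : ℕ) (z : Fin 4 → ℕ) : zp p (k • z) = (k : ZMod p) • zp p z := by
  funext i; simp [zp]

theorem mp_mulVec (p : ℕ) (M : M4) (z : Fin 4 → ℕ) (i : Fin 4) :
    (mp p M).mulVec (zp p z) i = ((M.mulVec (zz z) i : ℤ) : ZMod p) := by
  simp [Matrix.mulVec, dotProduct, zp, zz, mp]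

theorem dvd_iff_mp (p : ℕ) (M : M4) (z : Fin 4 → ℕ) :
    (∀ i, (p : ℤ) ∣ M.mulVec (zz z) i) ↔ (mp p M).mulVec (zp p z) = 0 := by
  constructor
  · intro h
    funext i
    rw [mp_mulVec]
    exact (ZMod.intCast_zmod_eq_zero_iff_dvd _ _).mpr (h i)
  · intro h i
    have := congrFun h i
    rw [mp_mulVec] at this
    exact (ZMod.intCast_zmod_eq_zero_iff_dvd _ _).mp this

theorem bad_scale {p : ℕ} {W : M4} {z : Fin 4 → ℕ} (hb : Bad W p z) {s : Fin 4 → ZMod p}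
    {x : ZMod p} (hs : (mp p W).mulVec s = 0) (hz : zp p z = x • s) : False := by
  apply hb
  rw [dvd_iff_mp, hz, Matrix.mulVec_smul, hs, smul_zero]

section lines

variable {p : ℕ} [Fact p.Prime] {W : M4} {g1 g2 g3 g4 : Fin 4 → ℕ} {s : Fin 4 → ZMod p}

theorem line1 (h1 : Bad W p g1) (hs : s ≠ 0) (hW : (mp p W).mulVec s = 0) {x1 : ZMod p}
    (hx : s = x1 • zp p g1) : False := by
  have h0 : x1 ≠ 0 := by rintro rfl; rw [zero_smul] at hx; exact hs hx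
  refine bad_scale h1 hW (x := x1⁻¹) ?_
  rw [hx, smul_smul, inv_mul_cancel₀ h0, one_smul]

theorem line2 (h1 : Bad W p g1) (h2 : ∀ i < p, Bad W p (g2 + i • g1)) (hs : s ≠ 0)
    (hW : (mp p W).mulVec s = 0) {x1 x2 : ZMod p}
    (hx : s = x1 • zp p g1 + x2 • zp p g2) : False := by
  by_cases h0 : x2 = 0
  · rw [h0, zero_smul, add_zero] at hx
    exact line1 h1 hs hW hx
  · refine bad_scale (h2 (x2⁻¹ * x1).val (ZMod.val_lt _)) hW (x := x2⁻¹) ?_
    rw [hx, zp_add, zp_smul, ZMod.natCast_zmod_val, smul_add, smul_smul, smul_smul,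
      inv_mul_cancel₀ h0, one_smul, add_comm]

theorem line3 (h1 : Bad W p g1) (h2 : ∀ i < p, Bad W p (g2 + i • g1))
    (h3 : ∀ j < p, ∀ i < p, Bad W p (g3 + j • g2 + i • g1)) (hs : s ≠ 0)
    (hW : (mp p W).mulVec s = 0) {x1 x2 x3 : ZMod p}
    (hx : s = x1 • zp p g1 + x2 • zp p g2 + x3 • zp p g3) : False := by
  by_cases h0 : x3 = 0
  · rw [h0, zero_smul, add_zero] at hx
    exact line2 h1 h2 hs hW hx
  · refine bad_scale (h3 (x3⁻¹ * x2).val (ZMod.val_lt _) (x3⁻¹ * x1).val (ZMod.val_lt _)) hW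
      (x := x3⁻¹) ?_
    rw [hx, zp_add, zp_add, zp_smul, zp_smul, ZMod.natCast_zmod_val, ZMod.natCast_zmod_val,
      smul_add, smul_add, smul_smul, smul_smul, smul_smul, inv_mul_cancel₀ h0, one_smul]
    abel

theorem line4 (h1 : Bad W p g1) (h2 : ∀ i < p, Bad W p (g2 + i • g1))
    (h3 : ∀ j < p, ∀ i < p, Bad W p (g3 + j • g2 + i • g1))
    (h4 : ∀ l < p, ∀ j < p, ∀ i < p, Bad W p (g4 + l • g3 + j • g2 + i • g1)) (hs : s ≠ 0)
    (hW : (mp p W).mulVec s = 0) {x1 x2 x3 x4 : ZMod p}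
    (hx : s = x1 • zp p g1 + x2 • zp p g2 + x3 • zp p g3 + x4 • zp p g4) : False := by
  by_cases h0 : x4 = 0
  · rw [h0, zero_smul, add_zero] at hx
    exact line3 h1 h2 h3 hs hW hx
  · refine bad_scale (h4 (x4⁻¹ * x3).val (ZMod.val_lt _) (x4⁻¹ * x2).val (ZMod.val_lt _)
      (x4⁻¹ * x1).val (ZMod.val_lt _)) hW (x := x4⁻¹) ?_
    rw [hx, zp_add, zp_add, zp_add, zp_smul, zp_smul, zp_smul, ZMod.natCast_zmod_val,
      ZMod.natCast_zmod_val, ZMod.natCast_zmod_val, smul_add, smul_add, smul_add, smul_smul,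
      smul_smul, smul_smul, smul_smul, inv_mul_cancel₀ h0, one_smul]
    abel

end lines

theorem ker_ex {c : K.Ctx} {D0 : ℕ} {F N W : M4} {n : Fin 4 → ℕ} {D cl p : ℕ}
    (S : Sp c D0 F N W n D cl p) (h : (p : ℤ) ∣ W.det) :
    ∃ s : Fin 4 → ZMod p, s ≠ 0 ∧ (mp p W).mulVec s = 0 ∧ (mp p N).mulVec s = 0 := by
  have : Fact p.Prime := ⟨S.hp⟩
  have h1 : (mp p W).det = 0 := by
    have h2 := (Int.castRingHom (ZMod p)).map_det W
    have h3 : (Int.castRingHom (ZMod p)) W.det = 0 :=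
      (ZMod.intCast_zmod_eq_zero_iff_dvd _ _).mpr h
    rw [h3] at h2
    exact h2.symm
  obtain ⟨s, hs, hs'⟩ := Matrix.exists_mulVec_eq_zero_iff.mpr h1
  refine ⟨s, hs, hs', ?_⟩
  have h4 : mp p N = mp p F * mp p W := by
    rw [← S.fw]
    exact Matrix.map_mul (f := Int.castRingHom (ZMod p))
  rw [h4, ← Matrix.mulVec_mulVec, hs', Matrix.mulVec_zero]

/-! ### reading digits -/

theorem Rep_Pd {c : K.Ctx} {N : M4} {n : Fin 4 → ℕ} (h : PkN c (n 0) (n 1) (n 2) (n 3) N)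
    {G tot : ℕ} {z : Fin 4 → ℕ} (hr : Rep c N G tot z) (ht : tot ≤ 2 ^ 60) :
    Pd c G (N.mulVec (zz z)) := by
  refine ⟨tot, hr.1, fun j => ?_⟩
  have h1 : |N.mulVec (zz z) j| ≤ tot * c.Q := by
    have e2 : N.mulVec (zz z) j = ∑ i, N j i * zz z i := rfl
    rw [e2]
    calc |∑ i, N j i * zz z i| ≤ ∑ i, |N j i * zz z i| :=
          Finset.abs_sum_le_sum_abs (fun i => N j i * zz z i) Finset.univ
      _ ≤ ∑ i, (z i : ℤ) * c.Q := by
          refine Finset.sum_le_sum fun i _ => ?_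
          have h2 := (h i).2 j
          have h3 : |zz z i| = (z i : ℤ) := by simp [zz]
          have h4 : (0 : ℤ) ≤ (z i : ℤ) := Int.natCast_nonneg _
          rw [abs_mul, h3, mul_comm]
          exact mul_le_mul_of_nonneg_left h2 h4
      _ = tot * c.Q := by
          rw [hr.2, ← Finset.sum_mul]
          push_cast
          rfl
  have h0 : (0 : ℤ) ≤ c.Q := Int.natCast_nonneg _
  have h2 := abs_le.mp h1
  have h3 : (tot : ℤ) ≤ 2 ^ 60 := by exact_mod_cast ht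
  have h4 : (tot : ℤ) * c.Q ≤ 2 ^ 60 * c.Q := mul_le_mul_of_nonneg_right h3 h0
  constructor
  · linarith [h2.1]
  · have h5 : (2 : ℤ) ^ 60 * c.Q + 2 ^ 60 * c.Q ≤ 2 ^ 70 * c.Q := by
      rw [← add_mul]
      exact mul_le_mul_of_nonneg_right (by norm_num) h0
    linarith [h2.2]

theorem Rep_gen {c : K.Ctx} {N : M4} {n : Fin 4 → ℕ} (h : PkN c (n 0) (n 1) (n 2) (n 3) N)
    (z : Fin 4 → ℕ) {G tot : ℕ} (hG : G = z 0 * n 0 + z 1 * n 1 + (z 2 * n 2 + z 3 * n 3))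
    (ht : tot = z 0 + z 1 + (z 2 + z 3)) : Rep c N G tot z := by
  subst hG; subst ht
  have h1 := Rep_add (Rep_add (Rep_smul (z 0) (Rep_basis h 0)) (Rep_smul (z 1) (Rep_basis h 1)))
    (Rep_add (Rep_smul (z 2) (Rep_basis h 2)) (Rep_smul (z 3) (Rep_basis h 3)))
  have e : z 0 • (Pi.single 0 1 : Fin 4 → ℕ) + z 1 • Pi.single 1 1 +
      (z 2 • Pi.single 2 1 + z 3 • Pi.single 3 1) = z := by
    funext i; fin_cases i <;> simp
  rw [e] at h1
  simpa using h1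

theorem z4_dvd (hP : Pack1Stmt) {c : K.Ctx} {D0 : ℕ} {F N W : M4} {n : Fin 4 → ℕ} {D cl p : ℕ}
    (S : Sp c D0 F N W n D cl p) {G tot : ℕ} {z : Fin 4 → ℕ} (hr : Rep c N G tot z)
    (ht : tot ≤ p ^ 3) (h : K.z4 c G p = true) : ∀ i, (p : ℤ) ∣ N.mulVec (zz z) i := by
  have h1 : tot ≤ 2 ^ 60 := by
    refine ht.trans ?_
    calc p ^ 3 ≤ 4096 ^ 3 := Nat.pow_le_pow_left S.hp'.le 3
      _ ≤ 2 ^ 60 := by norm_num
  exact ((hP c D0 G p _ S.hc (Rep_Pd S.pk hr h1) S.hp.pos S.hQ).1).mp h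

theorem dg_zmod (hP : Pack1Stmt) {c : K.Ctx} {D0 : ℕ} {F N W : M4} {n : Fin 4 → ℕ}
    {D cl p : ℕ} (S : Sp c D0 F N W n D cl p) (j i : Fin 4) :
    ((K.dg c (n j) i p : ℕ) : ZMod p) = (mp p N) i j := by
  have h1 := S.pk j
  have e1 : ![n 0, n 1, n 2, n 3] j = n j := by fin_cases j <;> rfl
  rw [e1] at h1
  have h2 := (hP c D0 (n j) p _ S.hc (Pk_Pd h1) S.hp.pos S.hQ).2 i
  have h3 : (((K.dg c (n j) i p : ℕ) : ℤ) : ZMod p) = ((N i j % (p : ℤ) : ℤ) : ZMod p) := by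
    rw [h2]
  rw [ZMod.intCast_mod, Int.cast_natCast] at h3
  exact h3

/-- three independent columns -/
theorem ind3 (hP : Pack1Stmt) {c : K.Ctx} {D0 : ℕ} {F N W : M4} {n : Fin 4 → ℕ} {D cl p : ℕ}
    (S : Sp c D0 F N W n D cl p) (i j k : Fin 4)
    (h : K.m3 p (K.dg c (n 1) i p) (K.dg c (n 1) j p) (K.dg c (n 1) k p)
      (K.dg c (n 2) i p) (K.dg c (n 2) j p) (K.dg c (n 2) k p)
      (K.dg c (n 3) i p) (K.dg c (n 3) j p) (K.dg c (n 3) k p) = true)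
    {u : Fin 4 → ZMod p} (h0 : u 0 = 0) (hu : (mp p N).mulVec u = 0) : u = 0 := by
  have : Fact p.Prime := ⟨S.hp⟩
  have hm := m3_zmod h
  rw [dg_zmod hP S 1 i, dg_zmod hP S 1 j, dg_zmod hP S 1 k, dg_zmod hP S 2 i, dg_zmod hP S 2 j,
    dg_zmod hP S 2 k, dg_zmod hP S 3 i, dg_zmod hP S 3 j, dg_zmod hP S 3 k] at hm
  have hr : ∀ l, (mp p N) l 1 * u 1 + (mp p N) l 2 * u 2 + (mp p N) l 3 * u 3 = 0 := by
    intro l
    have := congrFun hu l
    simp only [Matrix.mulVec, dotProduct, Fin.sum_univ_four, h0, mul_zero, zero_add,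
      Pi.zero_apply] at this
    exact this
  have hv : Matrix.vecMul ![u 1, u 2, u 3] !![(mp p N) i 1, (mp p N) j 1, (mp p N) k 1;
      (mp p N) i 2, (mp p N) j 2, (mp p N) k 2; (mp p N) i 3, (mp p N) j 3, (mp p N) k 3] = 0 := by
    funext l
    have h1 := hr i
    have h2 := hr j
    have h3 := hr k
    fin_cases l
    · simp [Matrix.vecMul, dotProduct, Fin.sum_univ_three] at h1 ⊢
      linear_combination h1
    · simp [Matrix.vecMul, dotProduct, Fin.sum_univ_three] at h2 ⊢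
      linear_combination h2
    · simp [Matrix.vecMul, dotProduct, Fin.sum_univ_three] at h3 ⊢
      linear_combination h3
  have hz := Matrix.eq_zero_of_vecMul_eq_zero hm hv
  funext l
  fin_cases l
  · exact h0
  · exact congrFun hz 0
  · exact congrFun hz 1
  · exact congrFun hz 2

theorem ind2 (hP : Pack1Stmt) {c : K.Ctx} {D0 : ℕ} {F N W : M4} {n : Fin 4 → ℕ} {D cl p : ℕ}
    (S : Sp c D0 F N W n D cl p) (i j : Fin 4)
    (h : K.min2 c p i j (n 2) (n 3) = true)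
    {u : Fin 4 → ZMod p} (h0 : u 0 = 0) (h1 : u 1 = 0) (hu : (mp p N).mulVec u = 0) :
    u = 0 := by
  have : Fact p.Prime := ⟨S.hp⟩
  unfold K.min2 at h
  rw [notb_iff, beq_iff] at h
  have hd : (mp p N) i 2 * (mp p N) j 3 - (mp p N) j 2 * (mp p N) i 3 ≠ 0 := by
    intro he
    apply h
    refine (ZMod.natCast_eq_natCast_iff' _ _ _).mp ?_
    change ((K.dg c (n 2) i p * K.dg c (n 3) j p : ℕ) : ZMod p) =
      ((K.dg c (n 2) j p * K.dg c (n 3) i p : ℕ) : ZMod p)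
    rw [Nat.cast_mul, Nat.cast_mul, dg_zmod hP S 2 i, dg_zmod hP S 3 j, dg_zmod hP S 2 j,
      dg_zmod hP S 3 i]
    exact sub_eq_zero.mp he
  have hr : ∀ l, (mp p N) l 2 * u 2 + (mp p N) l 3 * u 3 = 0 := by
    intro l
    have := congrFun hu l
    simp only [Matrix.mulVec, dotProduct, Fin.sum_univ_four, h0, h1, mul_zero, zero_add,
      Pi.zero_apply] at this
    exact this
  have e2 : u 2 = 0 := by
    have : ((mp p N) i 2 * (mp p N) j 3 - (mp p N) j 2 * (mp p N) i 3) * u 2 = 0 := by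
      linear_combination (mp p N) j 3 * hr i - (mp p N) i 3 * hr j
    exact (mul_eq_zero.mp this).resolve_left hd
  have e3 : u 3 = 0 := by
    have : ((mp p N) i 2 * (mp p N) j 3 - (mp p N) j 2 * (mp p N) i 3) * u 3 = 0 := by
      linear_combination (mp p N) i 2 * hr j - (mp p N) j 2 * hr i
    exact (mul_eq_zero.mp this).resolve_left hd
  funext l
  fin_cases l
  · exact h0
  · exact h1
  · exact e2
  · exact e3

theorem ind1 (hP : Pack1Stmt) {c : K.Ctx} {D0 : ℕ} {F N W : M4} {n : Fin 4 → ℕ} {D cl p : ℕ}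
    (S : Sp c D0 F N W n D cl p) (i : Fin 4)
    (h : K.notb (Nat.beq (K.dg c (n 3) i p) 0) = true)
    {u : Fin 4 → ZMod p} (h0 : u 0 = 0) (h1 : u 1 = 0) (h2 : u 2 = 0)
    (hu : (mp p N).mulVec u = 0) : u = 0 := by
  have : Fact p.Prime := ⟨S.hp⟩
  rw [notb_iff, beq_iff] at h
  have hlt : K.dg c (n 3) i p < p := Nat.mod_lt _ S.hp.pos
  have hd : (mp p N) i 3 ≠ 0 := by
    intro he
    apply h
    rw [← dg_zmod hP S 3 i, ZMod.natCast_eq_zero_iff] at he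
    exact Nat.eq_zero_of_dvd_of_lt he hlt
  have hr : (mp p N) i 3 * u 3 = 0 := by
    have := congrFun hu i
    simp only [Matrix.mulVec, dotProduct, Fin.sum_univ_four, h0, h1, h2, mul_zero, zero_add,
      Pi.zero_apply] at this
    exact this
  have e3 : u 3 = 0 := (mul_eq_zero.mp hr).resolve_left hd
  funext l
  fin_cases l
  · exact h0
  · exact h1
  · exact h2
  · exact e3

theorem min3_ind (hP : Pack1Stmt) {c : K.Ctx} {D0 : ℕ} {F N W : M4} {n : Fin 4 → ℕ}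
    {D cl p : ℕ} (S : Sp c D0 F N W n D cl p) (r : ℕ) (hr : r < 4)
    (h : K.min3 c p r (n 1) (n 2) (n 3) = true)
    {u : Fin 4 → ZMod p} (h0 : u 0 = 0) (hu : (mp p N).mulVec u = 0) : u = 0 := by
  have hr' : r = 0 ∨ r = 1 ∨ r = 2 ∨ r = 3 := by omega
  rcases hr' with rfl | rfl | rfl | rfl
  · exact ind3 hP S 1 2 3 h h0 hu
  · exact ind3 hP S 0 2 3 h h0 hu
  · exact ind3 hP S 0 1 3 h h0 hu
  · exact ind3 hP S 0 1 2 h h0 hu

theorem min2_ind (hP : Pack1Stmt) {c : K.Ctx} {D0 : ℕ} {F N W : M4} {n : Fin 4 → ℕ}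
    {D cl p : ℕ} (S : Sp c D0 F N W n D cl p) (i j : ℕ) (hi : i < 4) (hj : j < 4)
    (h : K.min2 c p i j (n 2) (n 3) = true)
    {u : Fin 4 → ZMod p} (h0 : u 0 = 0) (h1 : u 1 = 0) (hu : (mp p N).mulVec u = 0) : u = 0 :=
  ind2 hP S ⟨i, hi⟩ ⟨j, hj⟩ h h0 h1 hu

theorem ind1' (hP : Pack1Stmt) {c : K.Ctx} {D0 : ℕ} {F N W : M4} {n : Fin 4 → ℕ}
    {D cl p : ℕ} (S : Sp c D0 F N W n D cl p) (i : ℕ) (hi : i < 4)
    (h : K.notb (Nat.beq (K.dg c (n 3) i p) 0) = true)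
    {u : Fin 4 → ZMod p} (h0 : u 0 = 0) (h1 : u 1 = 0) (h2 : u 2 = 0)
    (hu : (mp p N).mulVec u = 0) : u = 0 :=
  ind1 hP S ⟨i, hi⟩ h h0 h1 h2 hu

theorem Rep_zero (c : K.Ctx) (N : M4) : Rep c N 0 0 0 := by
  refine ⟨?_, by simp⟩
  have : zz 0 = 0 := by funext i; simp [zz]
  rw [this, Matrix.mulVec_zero]
  simp [Pg]

/-- admissibility of combinations -/
theorem dvd_comb {N : M4} {p : ℕ} {g1 g2 : Fin 4 → ℕ} (i : ℕ)
    (h2 : ∀ j, (p : ℤ) ∣ N.mulVec (zz g2) j) (h1 : ∀ j, (p : ℤ) ∣ N.mulVec (zz g1) j) :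
    ∀ j, (p : ℤ) ∣ N.mulVec (zz (g2 + i • g1)) j := by
  intro j
  have e : zz (g2 + i • g1) = zz g2 + (i : ℤ) • zz g1 := by
    funext l; simp [zz]
  rw [e, Matrix.mulVec_add, Matrix.mulVec_smul, Pi.add_apply, Pi.smul_apply, smul_eq_mul]
  exact dvd_add (h2 j) ((h1 j).mul_left _)

theorem pow_facts {p : ℕ} (hp : p.Prime) : 4 * p ≤ p ^ 3 ∧ p * (2 * p) ≤ p ^ 3 := by
  have h2 := hp.two_le
  have h4 : 4 ≤ p * p := by nlinarith
  constructor
  · calc 4 * p ≤ (p * p) * p := Nat.mul_le_mul_right _ h4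
      _ = p ^ 3 := by ring
  · calc p * (2 * p) ≤ p * (p * p) := by gcongr
      _ = p ^ 3 := by ring

theorem sp1_sound (hP : Pack1Stmt) {c : K.Ctx} {D0 : ℕ} {F N W : M4} {n : Fin 4 → ℕ}
    {D cl p : ℕ} (S : Sp c D0 F N W n D cl p) {T : Prop}
    {rc : ℕ → ℕ → ℕ → ℕ → ℕ → List ℕ → ℕ} {K' : ℕ → ℕ → ℕ → ℕ → ℕ → ℕ}
    (hrc : ∀ a b d e s ex, NodeOK c D0 F a b d e (D / p) cl ex → rc a b d e s ex ≠ 0 → T)
    (hK : ∀ s, NodeOK c D0 F (n 0) (n 1) (n 2) (n 3) D (cl * p) [] →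
      K' (n 0) (n 1) (n 2) (n 3) s ≠ 0 → T)
    {s : ℕ} {ex : List ℕ} (hex : Ex c F ex)
    (h : K.sp1 c p (n 0) (n 1) (n 2) (n 3) s ex rc K' ≠ 0) : T := by
  have : Fact p.Prime := ⟨S.hp⟩
  have hp0 := S.hp.pos
  unfold K.sp1 at h
  simp only [fc_eq] at h
  rw [brec_ne, ands_iff] at h
  obtain ⟨⟨hz, hm⟩, hb⟩ := h
  set w := Nat.mod s (Nat.mul 4 (Nat.pow p 3)) with hw
  have hw4 : w < 4 * p ^ 3 := Nat.mod_lt _ (show 0 < 4 * p ^ 3 by positivity)
  have l1 : Nat.mod w p < p := Nat.mod_lt _ hp0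
  have l2 : Nat.mod (Nat.div w p) p < p := Nat.mod_lt _ hp0
  have l3 : Nat.mod (Nat.div w (Nat.pow p 2)) p < p := Nat.mod_lt _ hp0
  have l4 : Nat.div w (Nat.pow p 3) < 4 := by
    change w / p ^ 3 < 4
    rw [Nat.div_lt_iff_lt_mul (by positivity)]
    exact hw4
  set t1 := Nat.mod w p
  set t2 := Nat.mod (Nat.div w p) p
  set t3 := Nat.mod (Nat.div w (Nat.pow p 2)) p
  have hpf := pow_facts S.hp
  have hR : Rep c N (Nat.add (Nat.add (n 0) (Nat.mul t1 (n 1)))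
      (Nat.add (Nat.mul t2 (n 2)) (Nat.mul t3 (n 3)))) (Nat.add (Nat.add 1 t1) (Nat.add t2 t3))
      ![1, t1, t2, t3] := by
    refine Rep_gen S.pk _ ?_ ?_
    · change n 0 + t1 * n 1 + (t2 * n 2 + t3 * n 3) = 1 * n 0 + t1 * n 1 + (t2 * n 2 + t3 * n 3)
      ring
    · rfl
  have ht : Nat.add (Nat.add 1 t1) (Nat.add t2 t3) ≤ p ^ 3 := by
    change 1 + t1 + (t2 + t3) ≤ p ^ 3
    omega
  have ha : Adm N p 0 ![1, t1, t2, t3] := by
    refine ⟨rfl, ?_, z4_dvd hP S hR ht hz⟩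
    rw [← hR.2]; exact ht
  by_cases hbad : Bad W p ![1, t1, t2, t3]
  · generalize hcr : rc (K.mkv c p (Nat.add (Nat.add 1 t1) (Nat.add t2 t3))
      (Nat.add (Nat.add (n 0) (Nat.mul t1 (n 1))) (Nat.add (Nat.mul t2 (n 2))
        (Nat.mul t3 (n 3))))) (n 1) (n 2) (n 3) (Nat.div s (Nat.mul 4 (Nat.pow p 3))) ex = cr
      at hb
    rcases cr with _ | s'
    · exact absurd rfl hb
    · refine hK s' (final S ?_) hb
      intro hd
      obtain ⟨v, hv, hWv, hNv⟩ := ker_ex S hd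
      have hNz : (mp p N).mulVec (zp p ![1, t1, t2, t3]) = 0 := (dvd_iff_mp _ _ _).mp ha.dvd
      have hu : v - v 0 • zp p ![1, t1, t2, t3] = 0 := by
        apply min3_ind hP S _ l4 hm
        · simp [zp]
        · rw [Matrix.mulVec_sub, Matrix.mulVec_smul, hNv, hNz, smul_zero, sub_zero]
      exact line1 hbad hv hWv (sub_eq_zero.mp hu)
  · have hn := child S ha hR hbad hex
    refine hrc _ _ _ _ (Nat.div s (Nat.mul 4 (Nat.pow p 3))) ex hn ?_
    intro h0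
    apply hb
    have e : rc (K.mkv c p (Nat.add (Nat.add 1 t1) (Nat.add t2 t3))
      (Nat.add (Nat.add (n 0) (Nat.mul t1 (n 1))) (Nat.add (Nat.mul t2 (n 2))
        (Nat.mul t3 (n 3))))) (n 1) (n 2) (n 3) (Nat.div s (Nat.mul 4 (Nat.pow p 3))) ex = 0 := h0
    rw [e]
    rfl

theorem sp2_sound (hP : Pack1Stmt) {c : K.Ctx} {D0 : ℕ} {F N W : M4} {n : Fin 4 → ℕ}
    {D cl p : ℕ} (S : Sp c D0 F N W n D cl p) {T : Prop}
    {rc : ℕ → ℕ → ℕ → ℕ → ℕ → List ℕ → ℕ} {K' : ℕ → ℕ → ℕ → ℕ → ℕ → ℕ}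
    (hrc : ∀ a b d e s ex, NodeOK c D0 F a b d e (D / p) cl ex → rc a b d e s ex ≠ 0 → T)
    (hK : ∀ s, NodeOK c D0 F (n 0) (n 1) (n 2) (n 3) D (cl * p) [] →
      K' (n 0) (n 1) (n 2) (n 3) s ≠ 0 → T)
    {s : ℕ} {ex : List ℕ} (hex : Ex c F ex)
    (h : K.sp2 c p (n 0) (n 1) (n 2) (n 3) s ex rc K' ≠ 0) : T := by
  have : Fact p.Prime := ⟨S.hp⟩
  have hp0 := S.hp.pos
  unfold K.sp2 at h
  simp only [fc_eq] at h
  rw [brec_ne] at h
  simp only [ands_iff] at h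
  obtain ⟨⟨⟨hz1, hz2⟩, hm⟩, hb⟩ := h
  set w := Nat.mod s (Nat.mul 16 (Nat.pow p 4)) with hw
  have hw4 : w < 16 * p ^ 4 := Nat.mod_lt _ (show 0 < 16 * p ^ 4 by positivity)
  have l1 : Nat.mod w p < p := Nat.mod_lt _ hp0
  have l2 : Nat.mod (Nat.div w p) p < p := Nat.mod_lt _ hp0
  have l3 : Nat.mod (Nat.div w (Nat.pow p 2)) p < p := Nat.mod_lt _ hp0
  have l3' : Nat.mod (Nat.div w (Nat.pow p 3)) p < p := Nat.mod_lt _ hp0
  have l4 : Nat.div w (Nat.pow p 4) < 16 := by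
    change w / p ^ 4 < 16
    rw [Nat.div_lt_iff_lt_mul (by positivity)]
    exact hw4
  have l5 : Nat.mod (Nat.div w (Nat.pow p 4)) 4 < 4 := Nat.mod_lt _ (by norm_num)
  have l6 : Nat.div (Nat.div w (Nat.pow p 4)) 4 < 4 := by
    change w / p ^ 4 / 4 < 4
    change w / p ^ 4 < 16 at l4
    omega
  set t1 := Nat.mod w p
  set t2 := Nat.mod (Nat.div w p) p
  set t3 := Nat.mod (Nat.div w (Nat.pow p 2)) p
  set t4 := Nat.mod (Nat.div w (Nat.pow p 3)) p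
  have hpf := pow_facts S.hp
  have hR1 : Rep c N (Nat.add (n 0) (Nat.add (Nat.mul t1 (n 2)) (Nat.mul t2 (n 3))))
      (Nat.add 1 (Nat.add t1 t2)) ![1, 0, t1, t2] := by
    refine Rep_gen S.pk _ ?_ ?_
    · change n 0 + (t1 * n 2 + t2 * n 3) = 1 * n 0 + 0 * n 1 + (t1 * n 2 + t2 * n 3)
      ring
    · change 1 + (t1 + t2) = 1 + 0 + (t1 + t2)
      ring
  have hR2 : Rep c N (Nat.add (n 1) (Nat.add (Nat.mul t3 (n 2)) (Nat.mul t4 (n 3))))
      (Nat.add 1 (Nat.add t3 t4)) ![0, 1, t3, t4] := by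
    refine Rep_gen S.pk _ ?_ ?_
    · change n 1 + (t3 * n 2 + t4 * n 3) = 0 * n 0 + 1 * n 1 + (t3 * n 2 + t4 * n 3)
      ring
    · change 1 + (t3 + t4) = 0 + 1 + (t3 + t4)
      ring
  have b1 : 1 + (t1 + t2) ≤ 2 * p := by omega
  have b2 : 1 + (t3 + t4) ≤ 2 * p := by omega
  have ht1 : Nat.add 1 (Nat.add t1 t2) ≤ p ^ 3 := by
    change 1 + (t1 + t2) ≤ p ^ 3
    omega
  have ht2 : Nat.add 1 (Nat.add t3 t4) ≤ p ^ 3 := by
    change 1 + (t3 + t4) ≤ p ^ 3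
    omega
  have d1 := z4_dvd hP S hR1 ht1 hz1
  have d2 := z4_dvd hP S hR2 ht2 hz2
  have N1 := (dvd_iff_mp p N _).mp d1
  have N2 := (dvd_iff_mp p N _).mp d2
  refine lx_sound S 0 (T := T) ?_ (Rep_zero c N) 1 _ _ _ hR1 ?_ ?_ _ _ hex hb
  · intro v s' ex' hn h'
    exact hrc _ _ _ _ s' ex' hn h'
  · intro i _
    have e : ![1, 0, t1, t2] + i • (0 : Fin 4 → ℕ) = ![1, 0, t1, t2] := by simp
    rw [e]
    exact ⟨rfl, by rw [← hR1.2]; exact ht1, d1⟩
  · intro hB1 s1 ex1 hex1 h1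
    refine lx_sound S 1 (T := T) ?_ hR1 p _ _ _ hR2 ?_ ?_ _ _ hex1 h1
    · intro v s' ex' hn h'
      exact hrc _ _ _ _ s' ex' hn h'
    · intro i hi
      have hR := Rep_add hR2 (Rep_smul i hR1)
      refine ⟨by simp, ?_, dvd_comb i d2 d1⟩
      rw [← hR.2]
      change 1 + (t3 + t4) + i * (1 + (t1 + t2)) ≤ p ^ 3
      calc 1 + (t3 + t4) + i * (1 + (t1 + t2)) ≤ 2 * p + (p - 1) * (2 * p) := by
            gcongr
            omega
        _ = p * (2 * p) := by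
            obtain ⟨q, rfl⟩ : ∃ q, p = q + 1 := ⟨p - 1, by omega⟩
            simp only [Nat.add_sub_cancel]
            ring
        _ ≤ p ^ 3 := hpf.2
    · intro hB2 s2 ex2 hex2 h2
      refine hK s2 (final S ?_) h2
      intro hd
      obtain ⟨v, hv, hWv, hNv⟩ := ker_ex S hd
      have hu : v - (v 0 • zp p ![1, 0, t1, t2] + v 1 • zp p ![0, 1, t3, t4]) = 0 := by
        apply min2_ind hP S _ _ l5 l6 hm
        · simp [zp]
        · simp [zp]
        · rw [Matrix.mulVec_sub, Matrix.mulVec_add, Matrix.mulVec_smul, Matrix.mulVec_smul,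
            hNv, N1, N2, smul_zero, smul_zero, add_zero, sub_zero]
      have hB0 : Bad W p ![1, 0, t1, t2] := by
        have := hB1 0 one_pos
        simpa using this
      exact line2 hB0 hB2 hv hWv (sub_eq_zero.mp hu)

theorem sp3_sound (hP : Pack1Stmt) {c : K.Ctx} {D0 : ℕ} {F N W : M4} {n : Fin 4 → ℕ}
    {D cl p : ℕ} (S : Sp c D0 F N W n D cl p) {T : Prop}
    {rc : ℕ → ℕ → ℕ → ℕ → ℕ → List ℕ → ℕ} {K' : ℕ → ℕ → ℕ → ℕ → ℕ → ℕ}
    (hrc : ∀ a b d e s ex, NodeOK c D0 F a b d e (D / p) cl ex → rc a b d e s ex ≠ 0 → T)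
    (hK : ∀ s, NodeOK c D0 F (n 0) (n 1) (n 2) (n 3) D (cl * p) [] →
      K' (n 0) (n 1) (n 2) (n 3) s ≠ 0 → T)
    {s : ℕ} {ex : List ℕ} (hex : Ex c F ex)
    (h : K.sp3 c p (n 0) (n 1) (n 2) (n 3) s ex rc K' ≠ 0) : T := by
  have : Fact p.Prime := ⟨S.hp⟩
  have hp0 := S.hp.pos
  unfold K.sp3 at h
  simp only [fc_eq] at h
  rw [brec_ne] at h
  simp only [ands_iff] at h
  obtain ⟨⟨⟨hz1, hz2⟩, hz3, hm⟩, hb⟩ := h
  set w := Nat.mod s (Nat.mul 4 (Nat.pow p 3)) with hw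
  have hw4 : w < 4 * p ^ 3 := Nat.mod_lt _ (show 0 < 4 * p ^ 3 by positivity)
  have l1 : Nat.mod w p < p := Nat.mod_lt _ hp0
  have l2 : Nat.mod (Nat.div w p) p < p := Nat.mod_lt _ hp0
  have l3 : Nat.mod (Nat.div w (Nat.pow p 2)) p < p := Nat.mod_lt _ hp0
  have l4 : Nat.div w (Nat.pow p 3) < 4 := by
    change w / p ^ 3 < 4
    rw [Nat.div_lt_iff_lt_mul (by positivity)]
    exact hw4
  set t1 := Nat.mod w p
  set t2 := Nat.mod (Nat.div w p) p
  set t3 := Nat.mod (Nat.div w (Nat.pow p 2)) p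
  have hpf := pow_facts S.hp
  have hR1 : Rep c N (Nat.add (n 0) (Nat.mul t1 (n 3))) (Nat.succ t1) ![1, 0, 0, t1] := by
    refine Rep_gen S.pk _ ?_ ?_
    · change n 0 + t1 * n 3 = 1 * n 0 + 0 * n 1 + (0 * n 2 + t1 * n 3)
      ring
    · change t1 + 1 = 1 + 0 + (0 + t1)
      ring
  have hR2 : Rep c N (Nat.add (n 1) (Nat.mul t2 (n 3))) (Nat.succ t2) ![0, 1, 0, t2] := by
    refine Rep_gen S.pk _ ?_ ?_
    · change n 1 + t2 * n 3 = 0 * n 0 + 1 * n 1 + (0 * n 2 + t2 * n 3)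
      ring
    · change t2 + 1 = 0 + 1 + (0 + t2)
      ring
  have hR3 : Rep c N (Nat.add (n 2) (Nat.mul t3 (n 3))) (Nat.succ t3) ![0, 0, 1, t3] := by
    refine Rep_gen S.pk _ ?_ ?_
    · change n 2 + t3 * n 3 = 0 * n 0 + 0 * n 1 + (1 * n 2 + t3 * n 3)
      ring
    · change t3 + 1 = 0 + 0 + (1 + t3)
      ring
  have b1 : t1 + 1 ≤ p := by omega
  have b2 : t2 + 1 ≤ p := by omega
  have b3 : t3 + 1 ≤ p := by omega
  have ht1 : Nat.succ t1 ≤ p ^ 3 := by change t1 + 1 ≤ p ^ 3; omega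
  have ht2 : Nat.succ t2 ≤ p ^ 3 := by change t2 + 1 ≤ p ^ 3; omega
  have ht3 : Nat.succ t3 ≤ p ^ 3 := by change t3 + 1 ≤ p ^ 3; omega
  have d1 := z4_dvd hP S hR1 ht1 hz1
  have d2 := z4_dvd hP S hR2 ht2 hz2
  have d3 := z4_dvd hP S hR3 ht3 hz3
  have N1 := (dvd_iff_mp p N _).mp d1
  have N2 := (dvd_iff_mp p N _).mp d2
  have N3 := (dvd_iff_mp p N _).mp d3
  refine lx_sound S 0 (T := T) ?_ (Rep_zero c N) 1 _ _ _ hR1 ?_ ?_ _ _ hex hb
  · intro v s' ex' hn h'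
    exact hrc _ _ _ _ s' ex' hn h'
  · intro i _
    have e : ![1, 0, 0, t1] + i • (0 : Fin 4 → ℕ) = ![1, 0, 0, t1] := by simp
    rw [e]
    exact ⟨rfl, by rw [← hR1.2]; exact ht1, d1⟩
  · intro hB1 s1 ex1 hex1 h1
    refine lx_sound S 1 (T := T) ?_ hR1 p _ _ _ hR2 ?_ ?_ _ _ hex1 h1
    · intro v s' ex' hn h'
      exact hrc _ _ _ _ s' ex' hn h'
    · intro i hi
      have hR := Rep_add hR2 (Rep_smul i hR1)
      refine ⟨by simp, ?_, dvd_comb i d2 d1⟩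
      rw [← hR.2]
      change t2 + 1 + i * (t1 + 1) ≤ p ^ 3
      calc t2 + 1 + i * (t1 + 1) ≤ p + (p - 1) * p := by
            gcongr
            omega
        _ ≤ p * (2 * p) := by
            obtain ⟨q, rfl⟩ : ∃ q, p = q + 1 := ⟨p - 1, by omega⟩
            simp only [Nat.add_sub_cancel]
            nlinarith
        _ ≤ p ^ 3 := hpf.2
    · intro hB2 s2 ex2 hex2 h2
      refine ly_sound S 2 (T := T) ?_ hR1 hR2 p _ _ _ hR3 ?_ ?_ _ _ hex2 h2
      · intro v s' ex' hn h'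
        exact hrc _ _ _ _ s' ex' hn h'
      · intro j hj i hi
        have hR := Rep_add (Rep_add hR3 (Rep_smul j hR2)) (Rep_smul i hR1)
        refine ⟨by simp, ?_, dvd_comb i (dvd_comb j d3 d2) d1⟩
        rw [← hR.2]
        change t3 + 1 + j * (t2 + 1) + i * (t1 + 1) ≤ p ^ 3
        calc t3 + 1 + j * (t2 + 1) + i * (t1 + 1) ≤ p + (p - 1) * p + (p - 1) * p := by
              gcongr
              · omega
              · omega
          _ ≤ p * (2 * p) := by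
              obtain ⟨q, rfl⟩ : ∃ q, p = q + 1 := ⟨p - 1, by omega⟩
              simp only [Nat.add_sub_cancel]
              nlinarith
          _ ≤ p ^ 3 := hpf.2
      · intro hB3 s3 ex3 hex3 h3
        refine hK s3 (final S ?_) h3
        intro hd
        obtain ⟨v, hv, hWv, hNv⟩ := ker_ex S hd
        have hu : v - (v 0 • zp p ![1, 0, 0, t1] + v 1 • zp p ![0, 1, 0, t2] +
            v 2 • zp p ![0, 0, 1, t3]) = 0 := by
          apply ind1' hP S _ l4 hm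
          · simp [zp]
          · simp [zp]
          · simp [zp]
          · rw [Matrix.mulVec_sub, Matrix.mulVec_add, Matrix.mulVec_add, Matrix.mulVec_smul,
              Matrix.mulVec_smul, Matrix.mulVec_smul, hNv, N1, N2, N3, smul_zero, smul_zero,
              smul_zero, add_zero, add_zero, sub_zero]
        have hB0 : Bad W p ![1, 0, 0, t1] := by
          have := hB1 0 one_pos
          simpa using this
        exact line3 hB0 hB2 hB3 hv hWv (sub_eq_zero.mp hu)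

theorem sp4_sound (hP : Pack1Stmt) {c : K.Ctx} {D0 : ℕ} {F N W : M4} {n : Fin 4 → ℕ}
    {D cl p : ℕ} (S : Sp c D0 F N W n D cl p) {T : Prop}
    {rc : ℕ → ℕ → ℕ → ℕ → ℕ → List ℕ → ℕ} {K' : ℕ → ℕ → ℕ → ℕ → ℕ → ℕ}
    (hrc : ∀ a b d e s ex, NodeOK c D0 F a b d e (D / p) cl ex → rc a b d e s ex ≠ 0 → T)
    (hK : ∀ s, NodeOK c D0 F (n 0) (n 1) (n 2) (n 3) D (cl * p) [] →
      K' (n 0) (n 1) (n 2) (n 3) s ≠ 0 → T)
    {s : ℕ} {ex : List ℕ} (hex : Ex c F ex)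
    (h : K.sp4 c p (n 0) (n 1) (n 2) (n 3) s ex rc K' ≠ 0) : T := by
  have : Fact p.Prime := ⟨S.hp⟩
  have hp0 := S.hp.pos
  unfold K.sp4 at h
  rw [brec_ne] at h
  simp only [ands_iff] at h
  obtain ⟨⟨⟨hz1, hz2⟩, hz3, hz4⟩, hb⟩ := h
  have hpf := pow_facts S.hp
  have hR1 : Rep c N (n 0) 1 ![1, 0, 0, 0] := by
    refine Rep_gen S.pk _ ?_ rfl
    change n 0 = 1 * n 0 + 0 * n 1 + (0 * n 2 + 0 * n 3)
    ring
  have hR2 : Rep c N (n 1) 1 ![0, 1, 0, 0] := by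
    refine Rep_gen S.pk _ ?_ rfl
    change n 1 = 0 * n 0 + 1 * n 1 + (0 * n 2 + 0 * n 3)
    ring
  have hR3 : Rep c N (n 2) 1 ![0, 0, 1, 0] := by
    refine Rep_gen S.pk _ ?_ rfl
    change n 2 = 0 * n 0 + 0 * n 1 + (1 * n 2 + 0 * n 3)
    ring
  have hR4 : Rep c N (n 3) 1 ![0, 0, 0, 1] := by
    refine Rep_gen S.pk _ ?_ rfl
    change n 3 = 0 * n 0 + 0 * n 1 + (0 * n 2 + 1 * n 3)
    ring
  have ht1 : 1 ≤ p ^ 3 := by omega
  have d1 := z4_dvd hP S hR1 ht1 hz1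
  have d2 := z4_dvd hP S hR2 ht1 hz2
  have d3 := z4_dvd hP S hR3 ht1 hz3
  have d4 := z4_dvd hP S hR4 ht1 hz4
  refine lx_sound S 0 (T := T) ?_ (Rep_zero c N) 1 _ _ _ hR1 ?_ ?_ _ _ hex hb
  · intro v s' ex' hn h'
    exact hrc _ _ _ _ s' ex' hn h'
  · intro i _
    have e : ![1, 0, 0, 0] + i • (0 : Fin 4 → ℕ) = ![1, 0, 0, 0] := by simp
    rw [e]
    exact ⟨rfl, by rw [← hR1.2]; exact ht1, d1⟩
  · intro hB1 s1 ex1 hex1 h1
    refine lx_sound S 1 (T := T) ?_ hR1 p _ _ _ hR2 ?_ ?_ _ _ hex1 h1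
    · intro v s' ex' hn h'
      exact hrc _ _ _ _ s' ex' hn h'
    · intro i hi
      have hR := Rep_add hR2 (Rep_smul i hR1)
      refine ⟨by simp, ?_, dvd_comb i d2 d1⟩
      rw [← hR.2]
      omega
    · intro hB2 s2 ex2 hex2 h2
      refine ly_sound S 2 (T := T) ?_ hR1 hR2 p _ _ _ hR3 ?_ ?_ _ _ hex2 h2
      · intro v s' ex' hn h'
        exact hrc _ _ _ _ s' ex' hn h'
      · intro j hj i hi
        have hR := Rep_add (Rep_add hR3 (Rep_smul j hR2)) (Rep_smul i hR1)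
        refine ⟨by simp, ?_, dvd_comb i (dvd_comb j d3 d2) d1⟩
        rw [← hR.2]
        omega
      · intro hB3 s3 ex3 hex3 h3
        refine lz_sound S 3 (T := T) ?_ hR1 hR2 hR3 p _ _ _ hR4 ?_ ?_ _ _ hex3 h3
        · intro v s' ex' hn h'
          exact hrc _ _ _ _ s' ex' hn h'
        · intro l hl j hj i hi
          have hR := Rep_add (Rep_add (Rep_add hR4 (Rep_smul l hR3)) (Rep_smul j hR2))
            (Rep_smul i hR1)
          refine ⟨by simp, ?_, dvd_comb i (dvd_comb j (dvd_comb l d4 d3) d2) d1⟩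
          rw [← hR.2]
          omega
        · intro hB4 s4 ex4 hex4 h4
          refine hK s4 (final S ?_) h4
          intro hd
          obtain ⟨v, hv, hWv, hNv⟩ := ker_ex S hd
          have hu : v = v 0 • zp p ![1, 0, 0, 0] + v 1 • zp p ![0, 1, 0, 0] +
              v 2 • zp p ![0, 0, 1, 0] + v 3 • zp p ![0, 0, 0, 1] := by
            funext l
            fin_cases l <;> simp [zp]
          have hB0 : Bad W p ![1, 0, 0, 0] := by
            have := hB1 0 one_pos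
            simpa using this
          exact line4 hB0 hB2 hB3 hB4 hv hWv hu

/-! ### dispatch -/

theorem spl_cases {m : ℕ} {x1 x2 x3 : ℕ → ℕ → ℕ → ℕ → ℕ} {x4 : ℕ} {n : Fin 4 → ℕ}
    (h : K.spl m x1 x2 x3 x4 (n 0) (n 1) (n 2) (n 3) ≠ 0) :
    (∃ σ : Equiv.Perm (Fin 4), x1 (n (σ 0)) (n (σ 1)) (n (σ 2)) (n (σ 3)) ≠ 0) ∨
    (∃ σ : Equiv.Perm (Fin 4), x2 (n (σ 0)) (n (σ 1)) (n (σ 2)) (n (σ 3)) ≠ 0) ∨
    (∃ σ : Equiv.Perm (Fin 4), x3 (n (σ 0)) (n (σ 1)) (n (σ 2)) (n (σ 3)) ≠ 0) ∨ x4 ≠ 0 := by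
  rcases m with _ | _ | _ | _ | _ | _ | _ | _ | _ | _ | _ | _ | _ | _ | _ | m
  · exact absurd rfl h
  · exact Or.inl ⟨1, h⟩
  · exact Or.inl ⟨⟨![1, 0, 2, 3], ![1, 0, 2, 3], by decide, by decide⟩, h⟩
  · exact Or.inr (Or.inl ⟨1, h⟩)
  · exact Or.inl ⟨⟨![2, 0, 1, 3], ![1, 2, 0, 3], by decide, by decide⟩, h⟩
  · exact Or.inr (Or.inl ⟨⟨![0, 2, 1, 3], ![0, 2, 1, 3], by decide, by decide⟩, h⟩)
  · exact Or.inr (Or.inl ⟨⟨![1, 2, 0, 3], ![2, 0, 1, 3], by decide, by decide⟩, h⟩)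
  · exact Or.inr (Or.inr (Or.inl ⟨1, h⟩))
  · exact Or.inl ⟨⟨![3, 0, 1, 2], ![1, 2, 3, 0], by decide, by decide⟩, h⟩
  · exact Or.inr (Or.inl ⟨⟨![0, 3, 1, 2], ![0, 2, 3, 1], by decide, by decide⟩, h⟩)
  · exact Or.inr (Or.inl ⟨⟨![1, 3, 0, 2], ![2, 0, 3, 1], by decide, by decide⟩, h⟩)
  · exact Or.inr (Or.inr (Or.inl ⟨⟨![0, 1, 3, 2], ![0, 1, 3, 2], by decide, by decide⟩, h⟩))
  · exact Or.inr (Or.inl ⟨⟨![2, 3, 0, 1], ![2, 3, 0, 1], by decide, by decide⟩, h⟩)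
  · exact Or.inr (Or.inr (Or.inl ⟨⟨![0, 2, 3, 1], ![0, 3, 1, 2], by decide, by decide⟩, h⟩))
  · exact Or.inr (Or.inr (Or.inl ⟨⟨![1, 2, 3, 0], ![3, 0, 1, 2], by decide, by decide⟩, h⟩))
  · exact Or.inr (Or.inr (Or.inr h))

theorem split (hP : Pack1Stmt) : SplitStmt := by
  intro c D0 F n0 n1 n2 n3 D cl ex T ih p m s hc hn hp hp' hQ hih h
  have hSp : ∀ σ : Equiv.Perm (Fin 4), ∃ N W : M4,
      Sp c D0 F N W (![n0, n1, n2, n3] ∘ σ) D cl p ∧ Ex c F ex := by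
    intro σ
    obtain ⟨N, W, h1, h2, h3, h4, h5, h6, h7⟩ := node_perm (n := ![n0, n1, n2, n3]) σ hn
    exact ⟨N, W, ⟨hc, hp, hp', hQ, h1, h2, h3, h4, h5, h6⟩, h7⟩
  rcases spl_cases (n := ![n0, n1, n2, n3]) h with ⟨σ, hσ⟩ | ⟨σ, hσ⟩ | ⟨σ, hσ⟩ | hσ
  · obtain ⟨N, W, S, hex⟩ := hSp σ
    exact sp1_sound hP S (fun a b d e s ex hn h => hih a b d e (D / p) cl ex s hn h)
      (fun s hn h => hih _ _ _ _ D (cl * p) [] s hn h) hex hσ
  · obtain ⟨N, W, S, hex⟩ := hSp σ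
    exact sp2_sound hP S (fun a b d e s ex hn h => hih a b d e (D / p) cl ex s hn h)
      (fun s hn h => hih _ _ _ _ D (cl * p) [] s hn h) hex hσ
  · obtain ⟨N, W, S, hex⟩ := hSp σ
    exact sp3_sound hP S (fun a b d e s ex hn h => hih a b d e (D / p) cl ex s hn h)
      (fun s hn h => hih _ _ _ _ D (cl * p) [] s hn h) hex hσ
  · obtain ⟨N, W, S, hex⟩ := hSp 1
    exact sp4_sound hP S (fun a b d e s ex hn h => hih a b d e (D / p) cl ex s hn h)
      (fun s hn h => hih _ _ _ _ D (cl * p) [] s hn h) hex hσ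

end Pool.Agent.Refl.H44
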