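import Pool.Agent.Helper23_Refl.StmtC2

/-! Basic lemmas on the kernel functions and on packed vectors. -/

namespace Pool.Agent.Refl.H44

open Matrix

theorem fc_eq {α : Type} (n : ℕ) (f : ℕ → α) : K.fc n f = f n := by cases n <;> rfl

theorem brec_ne {b : Bool} {x : ℕ} : (Bool.rec 0 x b : ℕ) ≠ 0 ↔ b = true ∧ x ≠ 0 := by
  cases b <;> simp

theorem okb_ne {b : Bool} {s : ℕ} : K.okb b s ≠ 0 ↔ b = true := by
  cases b <;> simp [K.okb]

theorem ands_iff {a b : Bool} : K.ands a b = true ↔ a = true ∧ b = true := by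
  cases a <;> cases b <;> simp [K.ands]

theorem notb_iff {b : Bool} : K.notb b = true ↔ ¬ b = true := by
  cases b <;> simp [K.notb]

theorem beq_iff {a b : ℕ} : Nat.beq a b = true ↔ a = b := by
  rw [Nat.beq_eq]

theorem ble_iff {a b : ℕ} : Nat.ble a b = true ↔ a ≤ b := by rw [Nat.ble_eq]

theorem clo_iff {D cl p : ℕ} : K.clo D cl p = true ↔ (¬ p ∣ D ∨ p ∣ cl) := by
  unfold K.clo
  have h1 : K.notb (Nat.beq (Nat.mod D p) 0) = true ↔ ¬ p ∣ D := by
    rw [notb_iff, beq_iff]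
    exact not_congr (Nat.dvd_iff_mod_eq_zero).symm
  have h2 : Nat.beq (Nat.mod cl p) 0 = true ↔ p ∣ cl := by
    rw [beq_iff]
    exact (Nat.dvd_iff_mod_eq_zero).symm
  cases hb : K.notb (Nat.beq (Nat.mod D p) 0)
  · rw [hb] at h1
    have h3 : ¬ ¬ p ∣ D := fun h => absurd (h1.mpr h) (by simp)
    constructor
    · intro h; exact Or.inr (h2.mp h)
    · rintro (h | h)
      · exact absurd h h3
      · exact h2.mpr h
  · rw [hb] at h1
    constructor
    · intro _; exact Or.inl (h1.mp rfl)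
    · intro _; rfl

theorem sel_cases (i a b c d : ℕ) : K.sel i a b c d = a ∨ K.sel i a b c d = b ∨
    K.sel i a b c d = c ∨ K.sel i a b c d = d := by
  rcases i with _ | _ | _ | i
  · exact Or.inl rfl
  · exact Or.inr (Or.inl rfl)
  · exact Or.inr (Or.inr (Or.inl rfl))
  · exact Or.inr (Or.inr (Or.inr rfl))

theorem piv_cases (i : ℕ) (f : ℕ → ℕ → ℕ → ℕ → ℕ) (a b d e : ℕ) :
    K.piv i f a b d e = f a b d e ∨ K.piv i f a b d e = f b a d e ∨
    K.piv i f a b d e = f d a b e ∨ K.piv i f a b d e = f e a b d := by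
  rcases i with _ | _ | _ | i
  · exact Or.inl rfl
  · exact Or.inr (Or.inl rfl)
  · exact Or.inr (Or.inr (Or.inl rfl))
  · exact Or.inr (Or.inr (Or.inr rfl))

/-- the columns are a permutation -/
theorem PkN_perm {c : K.Ctx} {n : Fin 4 → ℕ} {N : M4} (σ : Equiv.Perm (Fin 4))
    (h : PkN c (n 0) (n 1) (n 2) (n 3) N) :
    PkN c (n (σ 0)) (n (σ 1)) (n (σ 2)) (n (σ 3)) (N.submatrix id σ) := by
  intro i
  have h1 := h (σ i)
  have e1 : ![n 0, n 1, n 2, n 3] (σ i) = n (σ i) := by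
    generalize σ i = j
    fin_cases j <;> rfl
  have e2 : ![n (σ 0), n (σ 1), n (σ 2), n (σ 3)] i = n (σ i) := by
    fin_cases i <;> rfl
  rw [e1] at h1
  rw [e2]
  exact h1

theorem node_perm {c : K.Ctx} {D0 : ℕ} {F : M4} {n : Fin 4 → ℕ} {D cl : ℕ} {ex : List ℕ}
    (σ : Equiv.Perm (Fin 4)) (h : NodeOK c D0 F (n 0) (n 1) (n 2) (n 3) D cl ex) :
    NodeOK c D0 F (n (σ 0)) (n (σ 1)) (n (σ 2)) (n (σ 3)) D cl ex := by
  obtain ⟨N, W, h1, h2, h3, h4, h5, h6, h7⟩ := h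
  refine ⟨N.submatrix id σ, W.submatrix id σ, ?_, PkN_perm σ h2, ?_, h4, ?_, ?_, h7⟩
  · rw [← h1]; rfl
  · rw [Matrix.det_permute', Int.natAbs_mul, Int.cast_id, Int.units_natAbs, one_mul]
    exact h3
  · intro i j; exact h5 _ _
  · intro p hp hcl hd
    rw [Matrix.det_permute', Int.cast_id] at hd
    apply h6 p hp hcl
    exact (IsUnit.dvd_mul_left (Units.isUnit _)).mp hd

end Pool.Agent.Refl.H44
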